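import Pool.Agent.H39.PDE.Main

/-!
# The main theorem
-/

open MeasureTheory Set Filter Topology
open scoped ContDiff

namespace Pool.Agent.H39.PDE

open H459R3.NS (V K3 Per cube SP pd lap ee fr)
open Pool.Agent.H42.Flag (two two_fast Fast BlowsUpAt)

variable {lam : ℕ}

/-- smooth vector fields on the torus `ℝ³ / ℤ³` -/
def Field (v : V → V) : Prop := ∀ i, SP fun x => v x i

/-- The properties of the bilinear term of the Navier-Stokes equations which enter energy and Sobolev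
estimates: `C` maps smooth fields to smooth divergence-free fields, it is symmetric and bilinear, it conserves
the energy, and it obeys `|⟨C(v, w), z⟩| ≤ ε 16 ^ (|a| + |b| + |c|) ‖v‖_a ‖w‖_b ‖z‖_c` whenever `a + b + c = 5 / 2`. -/
structure Admissible (C : (V → V) → (V → V) → V → V) (L ε : ℝ) : Prop where
  field : ∀ v w, Field v → Field w → Field (C v w)
  divfree : ∀ v w, Field v → Field w → ∀ x, ∑ i, pd i (fun y => C v w y i) x = 0
  symm : ∀ v w, Field v → Field w → C v w = C w v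
  add : ∀ v v' w, Field v → Field v' → Field w →
    C (fun x i => v x i + v' x i) w = fun x i => C v w x i + C v' w x i
  smul : ∀ (r : ℝ) v w, Field v → Field w → C (fun x i => r * v x i) w = fun x i => r * C v w x i
  energy : ∀ v, Field v → ip (C v v) v = 0
  bound : ∀ a b c : ℝ, a + b + c = 5 / 2 → ∀ v w z, Field v → Field w → Field z →
    |ip (C v w) z| ≤ ε * L ^ (|a| + |b| + |c|) * (sob a v * sob b w * sob c z)

theorem admissible (hlam : 2 ≤ lam) (α β : ℝ) :
    Admissible (casc lam ((lam : ℝ) ^ (5 / 2 : ℝ)) α β) lam (6 * (|α| + |β|)) := by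
  have hl1 : 1 ≤ lam := by omega
  have hl : (0 : ℝ) < lam := by exact_mod_cast hl1
  have hB : (0 : ℝ) < (lam : ℝ) ^ (5 / 2 : ℝ) := Real.rpow_pos_of_pos hl _
  have hrs : ∀ v w, Field v → Field w → RS (sh α β ((lam : ℝ) ^ (5 / 2 : ℝ)) (co lam v) (co lam w)) :=
    fun v w hv hw => (co_RS hlam hv).sh hB (co_RS hlam hw)
  refine ⟨fun v w hv hw i => ?_, fun v w hv hw x => ?_, fun v w hv hw => ?_, fun v v' w hv hv' hw => ?_,
    fun r v w hv hw => ?_, fun v hv => casc_energy hlam hB α β hv,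
    fun a b c habc v w z hv hw hz => casc_tri hlam α β habc hv hw hz⟩
  · exact fld_sp hlam (hrs v w hv hw) i
  · exact fld_div hl1 (hrs v w hv hw) x
  · rw [casc_eq, casc_eq, sh_comm]
  · funext x i
    have e : co lam (fun x i => v x i + v' x i) = fun k => co lam v k + co lam v' k :=
      funext fun n => co_add hv hv' n
    have s1 := fld_summable (lam := lam) (hrs v w hv hw).summable_abs x i
    have s2 := fld_summable (lam := lam) (hrs v' w hv' hw).summable_abs x i
    unfold casc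
    rw [e, ← s1.tsum_add s2]
    refine tsum_congr fun n => ?_
    rw [sh_add]
    ring
  · funext x i
    have e : co lam (fun x i => r * v x i) = fun k => r * co lam v k :=
      funext fun n => co_smul v r n
    unfold casc
    rw [e, ← tsum_mul_left]
    refine tsum_congr fun n => ?_
    rw [sh_smul]
    ring

theorem blow_pde (hlam : 16 ≤ lam) {α β : ℝ} (hβ : 0 < β)
    (h1 : Real.exp (-(2 * (lam : ℝ) ^ (5 / 2 : ℝ))) * β ≤ α)
    (h2 : α ≤ Real.exp (-((lam : ℝ) ^ (5 / 2 : ℝ))) * β) {ν T : ℝ} (hν : 0 ≤ ν) (hT : 0 < T) :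
    ∃ A₀ : ℝ, ∀ A, A₀ ≤ A → ∀ θ : ℝ, θ = 0 ∨ θ = 1 → ∃ T₀, T₀ ≤ T ∧
      BlowsUp θ lam ((lam : ℝ) ^ (5 / 2 : ℝ)) α β ν T₀ (datum lam A (A / ((lam : ℝ) ^ (5 / 2 : ℝ)) ^ 2)) := by
  have hl : (16 : ℝ) ≤ lam := by exact_mod_cast hlam
  have hl0 : (0 : ℝ) < lam := by linarith
  have hpi := Real.pi_pos
  obtain ⟨A₀, h⟩ := Pool.Agent.H42.Flag.ns (ν := 4 * Real.pi ^ 2 * ν) hl (by positivity) hβ h1 h2 T hT
  refine ⟨A₀, fun A hA θ hθ => ?_⟩
  obtain ⟨-, T₀, hT₀, hb⟩ := h A hA
  refine ⟨T₀, hT₀, ?_⟩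
  rw [show (lam : ℝ) ^ (2 * (1 : ℝ)) = (lam : ℝ) ^ 2 by rw [mul_one, Real.rpow_two]] at hb
  rw [← fld_two]
  exact blowsUp (by omega) hν hθ (two_fast _ _) hb

end Pool.Agent.H39.PDE
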