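import Pool.Agent.H39.PDE.Up

/-!
# Properties of the cascade operator: energy cancellation, trilinear estimate
-/

open MeasureTheory Set Filter Topology
open scoped ContDiff

namespace Pool.Agent.H39.PDE

open H459R3.NS (V K3 Per cube SP pd lap ee fr)
open Pool.Agent.H39.Dy (gain flux prev)

variable {lam : ℕ}

/-- `⟨v, w⟩ = ∫ v · w` -/
noncomputable def ip (v w : V → V) : ℝ := ∫ x in cube, ∑ i, v x i * w x i

/-- pairing of a series with a smooth field -/
theorem ip_fld {a : ℕ → ℝ} (ha : Summable fun n => |a n|) {w : V → V} (hw : ∀ i, SP fun x => w x i) :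
    HasSum (fun n => a n * co lam w n) (ip (fld lam a) w) := by
  obtain ⟨M, hM⟩ : ∃ M : ℝ, ∀ x ∈ cube, ∀ i, |w x i| ≤ M := by
    have hK : IsCompact cube := isCompact_Icc
    choose C hC using fun i => hK.exists_bound_of_continuousOn ((hw i).cont.continuousOn (s := cube))
    refine ⟨∑ i, |C i|, fun x hx i => ?_⟩
    refine ((hC i x hx).trans (le_abs_self _)).trans ?_
    exact Finset.single_le_sum (f := fun i => |C i|) (fun i _ => abs_nonneg _) (Finset.mem_univ i)
  have hM0 : 0 ≤ M := (abs_nonneg _).trans (hM 0 ⟨le_rfl, fun i => zero_le_one⟩ 0)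
  set F : ℕ → V → ℝ := fun n x => a n * ∑ i, w x i * psi lam n x i with hF
  have hpt : ∀ x : V, ∑ i, fld lam a x i * w x i = ∑' n, F n x := by
    intro x
    have hs := fun i => fld_summable (lam := lam) ha x i
    unfold fld
    rw [Fin.sum_univ_three, ← tsum_mul_right, ← tsum_mul_right, ← tsum_mul_right,
      ← ((hs 0).mul_right _).tsum_add ((hs 1).mul_right _),
      ← (((hs 0).mul_right _).add ((hs 1).mul_right _)).tsum_add ((hs 2).mul_right _)]
    refine tsum_congr fun n => ?_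
    simp only [hF, Fin.sum_univ_three]
    ring
  have hFc : ∀ n, Continuous (F n) := fun n =>
    continuous_const.mul (continuous_finsetSum _ fun i _ => (hw i).cont.mul (sp_psi n i).cont)
  have hFb : ∀ n, ∀ x ∈ cube, ‖F n x‖ ≤ 3 * M * |a n| := by
    intro n x hx
    rw [Real.norm_eq_abs, abs_mul]
    have : |∑ i, w x i * psi lam n x i| ≤ 3 * M := by
      refine (Finset.abs_sum_le_sum_abs _ _).trans ?_
      have : ∀ i ∈ (Finset.univ : Finset (Fin 3)), |w x i * psi lam n x i| ≤ M := by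
        intro i _
        rw [abs_mul]
        calc |w x i| * |psi lam n x i| ≤ M * 1 := mul_le_mul (hM x hx i) (abs_psi_le n x i) (abs_nonneg _) hM0
          _ = M := mul_one M
      refine (Finset.sum_le_sum this).trans ?_
      simp
    calc |a n| * |∑ i, w x i * psi lam n x i| ≤ |a n| * (3 * M) := by gcongr
      _ = _ := by ring
  have := H459R3.NS.cube_finite
  have hFint : ∀ n, Integrable (F n) (volume.restrict cube) := fun n => H459R3.NS.integrableOn_cube (hFc n)
  have hFsum : Summable fun n => ∫ x in cube, ‖F n x‖ := by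
    refine Summable.of_nonneg_of_le (fun n => integral_nonneg fun x => norm_nonneg _) (fun n => ?_)
      (ha.mul_left (3 * M))
    have h1 : ∫ x in cube, ‖F n x‖ ≤ ∫ _ in cube, 3 * M * |a n| :=
      setIntegral_mono_on (hFint n).norm (integrable_const _) measurableSet_Icc (hFb n)
    refine h1.trans (le_of_eq ?_)
    simp [Measure.real, H459R3.NS.volume_cube]
  have h2 : ∀ n, ∫ x in cube, F n x = a n * co lam w n := by
    intro n
    simp only [hF]
    rw [integral_const_mul]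
    rfl
  have h3 := hasSum_integral_of_summable_integral_norm hFint hFsum
  simp_rw [h2] at h3
  unfold ip
  simp_rw [hpt]
  exact h3

/-- a telescoping sum -/
theorem hasSum_sh_self {B α β : ℝ} (hB : 0 < B) {x : ℕ → ℝ} (hx : RS x) :
    HasSum (fun n => sh α β B x x n * x n) 0 := by
  obtain ⟨K, hK⟩ := hx.bdd
  have hs : Summable fun n => sh α β B x x n * x n := by
    have := ((hx.sh (α := α) (β := β) hB hx).mul_bdd hK).summable_abs
    exact this.of_abs
  have hpart : ∀ M, ∑ n ∈ Finset.range (M + 1), sh α β B x x n * x n = -flux α β B x M := by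
    intro M
    have h1 : ∀ n, sh α β B x x n * x n = prev (flux α β B x) n - flux α β B x n := by
      intro n
      rw [sh_self, ← Dy.gain_mul]
      unfold flux
      ring
    simp_rw [h1]
    rw [← Nat.Ico_zero_eq_range, Dy.telescope _ 0 (M + 1) (Nat.zero_le _)]
    simp only [prev]
    ring
  have hf : Tendsto (fun M => -flux α β B x M) atTop (𝓝 0) := by
    have h2 : RS fun n => flux α β B x n := by
      have h3 : RS fun n => B ^ n * (x n * (x (n + 1) * (α * x n + β * x (n + 1)))) := by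
        refine RS.pow_mul ?_ hB
        refine hx.mul_bdd (y := fun n => x (n + 1) * (α * x n + β * x (n + 1)))
          (K := K * ((|α| + |β|) * K)) fun n => ?_
        rw [abs_mul]
        exact mul_le_mul (hK _) (Dy.lin_le α β _ _ K (hK n) (hK _)) (abs_nonneg _) ((abs_nonneg _).trans (hK 0))
      refine h3.congr fun n => ?_
      unfold flux
      ring
    have h4 := h2.summable_abs.tendsto_atTop_zero
    have h5 := (tendsto_zero_iff_abs_tendsto_zero _).2 h4
    simpa using h5.neg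
  have h6 := hs.hasSum.tendsto_sum_nat
  rw [← tendsto_add_atTop_iff_nat 1] at h6
  simp_rw [hpart] at h6
  have := tendsto_nhds_unique h6 hf
  rw [← this]
  exact hs.hasSum

/-- **Energy cancellation.** -/
theorem casc_energy (hlam : 2 ≤ lam) {B : ℝ} (hB : 0 < B) (α β : ℝ) {v : V → V} (hv : ∀ i, SP fun x => v x i) :
    ip (casc lam B α β v v) v = 0 := by
  have hrs := co_RS hlam hv
  rw [casc_eq]
  exact (ip_fld ((hrs.sh hB hrs).summable_abs) hv).unique (hasSum_sh_self hB hrs)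

/-! ### Sobolev norms -/

/-- the size `|2 π k|²` of a frequency -/
noncomputable def fq (k : K3) : ℝ := 4 * Real.pi ^ 2 * ∑ j, (k j : ℝ) ^ 2

/-- the homogeneous Sobolev norm `(∑_{k ≠ 0} |2 π k|^(2 s) |v̂(k)|²)^(1/2)` -/
noncomputable def sob (s : ℝ) (v : V → V) : ℝ :=
  Real.sqrt (∑' k : K3, if k = 0 then 0 else fq k ^ s * ∑ i, ‖fr (fun x => v x i) k‖ ^ 2)

theorem fq_kap (n : ℕ) : fq (kap lam n) = (2 * Real.pi * lam ^ n) ^ 2 := by
  unfold fq
  rw [Fin.sum_univ_three]
  simp [kap]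
  ring

theorem sob_summable (s : ℝ) {v : V → V} (hv : ∀ i, SP fun x => v x i) :
    Summable fun k : K3 => if k = 0 then 0 else fq k ^ s * ∑ i, ‖fr (fun x => v x i) k‖ ^ 2 := by
  obtain ⟨m, hm⟩ := exists_nat_ge |s|
  choose C hC using fun i => H459R3.NS.norm_fr_le (hv i)
  have hC0 : ∀ i, 0 ≤ C i := fun i => (norm_nonneg _).trans (hC i 0)
  have h1 : ∀ i, Summable fun k => (H459R3.NS.N k : ℝ) ^ (2 * m) * ‖fr (fun x => v x i) k‖ :=
    fun i => H459R3.NS.rap_fr (hv i) (2 * m)
  have h2 : Summable fun k => ∑ i, (12 * Real.pi ^ 2) ^ m * C i *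
      ((H459R3.NS.N k : ℝ) ^ (2 * m) * ‖fr (fun x => v x i) k‖) :=
    summable_sum fun i _ => (h1 i).mul_left _
  refine Summable.of_nonneg_of_le (fun k => ?_) (fun k => ?_) h2
  · by_cases hk : k = 0
    · simp [hk]
    · rw [if_neg hk]
      have : 0 ≤ fq k := by unfold fq; positivity
      have := Real.rpow_nonneg this s
      positivity
  · by_cases hk : k = 0
    · rw [if_pos hk]
      refine Finset.sum_nonneg fun i _ => ?_
      have := hC0 i
      positivity
    · rw [if_neg hk, Finset.mul_sum]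
      refine Finset.sum_le_sum fun i _ => ?_
      have hN : (1 : ℝ) ≤ H459R3.NS.N k := by
        have : H459R3.NS.N k ≠ 0 := fun h => hk (H459R3.NS.N_eq_zero.1 h)
        exact_mod_cast Nat.one_le_iff_ne_zero.2 this
      have hj : ∀ j, |(k j : ℝ)| ≤ H459R3.NS.N k := by
        intro j
        have := (H459R3.NS.N_le_iff k (H459R3.NS.N k)).1 le_rfl j
        have h3 : |(k j : ℝ)| = ((|k j| : ℤ) : ℝ) := by push_cast; rfl
        rw [h3]
        exact_mod_cast this
      have hsum1 : 1 ≤ ∑ j, (k j : ℝ) ^ 2 := by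
        obtain ⟨j, hj'⟩ : ∃ j, k j ≠ 0 := by
          by_contra h
          push Not at h
          exact hk (funext h)
        have h4 : (1 : ℝ) ≤ (k j : ℝ) ^ 2 := by
          have h5 : 1 ≤ |k j| := Int.one_le_abs hj'
          have h6 : (1 : ℝ) ≤ |(k j : ℝ)| := by exact_mod_cast h5
          rw [← sq_abs]
          nlinarith
        exact h4.trans (Finset.single_le_sum (f := fun j => (k j : ℝ) ^ 2) (fun j _ => sq_nonneg _)
          (Finset.mem_univ j))
      have hsum2 : ∑ j, (k j : ℝ) ^ 2 ≤ 3 * (H459R3.NS.N k : ℝ) ^ 2 := by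
        have : ∀ j ∈ (Finset.univ : Finset (Fin 3)), (k j : ℝ) ^ 2 ≤ (H459R3.NS.N k : ℝ) ^ 2 := by
          intro j _
          rw [← sq_abs]
          exact pow_le_pow_left₀ (abs_nonneg _) (hj j) 2
        refine (Finset.sum_le_sum this).trans ?_
        simp
      have hpi := Real.pi_gt_three
      have hf1 : 1 ≤ fq k := by
        unfold fq
        nlinarith
      have hf2 : fq k ≤ 12 * Real.pi ^ 2 * (H459R3.NS.N k : ℝ) ^ 2 := by
        unfold fq
        nlinarith [sq_nonneg Real.pi]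
      have h7 : fq k ^ s ≤ (12 * Real.pi ^ 2) ^ m * (H459R3.NS.N k : ℝ) ^ (2 * m) := by
        calc fq k ^ s ≤ fq k ^ (m : ℝ) := Real.rpow_le_rpow_of_exponent_le hf1 ((le_abs_self s).trans hm)
          _ = fq k ^ m := Real.rpow_natCast _ _
          _ ≤ (12 * Real.pi ^ 2 * (H459R3.NS.N k : ℝ) ^ 2) ^ m := pow_le_pow_left₀ (by linarith) hf2 m
          _ = _ := by rw [mul_pow, ← pow_mul]
      have h8 : ‖fr (fun x => v x i) k‖ ^ 2 ≤ C i * ‖fr (fun x => v x i) k‖ := by
        rw [pow_two]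
        exact mul_le_mul_of_nonneg_right (hC i k) (norm_nonneg _)
      calc fq k ^ s * ‖fr (fun x => v x i) k‖ ^ 2 ≤
          ((12 * Real.pi ^ 2) ^ m * (H459R3.NS.N k : ℝ) ^ (2 * m)) * (C i * ‖fr (fun x => v x i) k‖) := by
            gcongr
        _ = _ := by ring

/-- the weighted coefficients are controlled by the Sobolev norm -/
theorem sum_co_le (hlam : 2 ≤ lam) (s : ℝ) {v : V → V} (hv : ∀ i, SP fun x => v x i) (M : ℕ) :
    ∑ n ∈ Finset.range M, ((2 * Real.pi * (lam : ℝ) ^ n) ^ s * |co lam v n|) ^ 2 ≤ 2 * sob s v ^ 2 := by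
  have hsum := sob_summable s hv
  have hpi := Real.pi_pos
  have hl : (0 : ℝ) < lam := by
    have : 0 < lam := by omega
    exact_mod_cast this
  have h0 : ∀ k : K3, 0 ≤ if k = 0 then 0 else fq k ^ s * ∑ i, ‖fr (fun x => v x i) k‖ ^ 2 := by
    intro k
    by_cases hk : k = 0
    · simp [hk]
    · rw [if_neg hk]
      have : 0 ≤ fq k := by unfold fq; positivity
      have := Real.rpow_nonneg this s
      positivity
  have hsq : sob s v ^ 2 = ∑' k : K3, if k = 0 then 0 else fq k ^ s * ∑ i, ‖fr (fun x => v x i) k‖ ^ 2 :=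
    Real.sq_sqrt (tsum_nonneg h0)
  rw [hsq]
  have hkap : ∀ n, kap lam n ≠ 0 := by
    intro n h
    have := congrFun h 0
    simp [kap] at this
    omega
  have hterm : ∀ n, ((2 * Real.pi * (lam : ℝ) ^ n) ^ s * |co lam v n|) ^ 2 ≤
      2 * (if kap lam n = 0 then 0 else fq (kap lam n) ^ s * ∑ i, ‖fr (fun x => v x i) (kap lam n)‖ ^ 2) := by
    intro n
    rw [if_neg (hkap n), fq_kap, mul_pow, sq_abs]
    have hb : (0 : ℝ) ≤ 2 * Real.pi * (lam : ℝ) ^ n := by positivity
    have e1 : ((2 * Real.pi * (lam : ℝ) ^ n) ^ s) ^ 2 = ((2 * Real.pi * (lam : ℝ) ^ n) ^ 2) ^ s :=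
      Real.rpow_pow_comm hb s 2
    rw [e1]
    have h2 : (co lam v n) ^ 2 ≤ 2 * ∑ i, ‖fr (fun x => v x i) (kap lam n)‖ ^ 2 := by
      rw [co_eq_fr hv, Fin.sum_univ_three]
      have a1 : (fr (fun x => v x 1) (kap lam n)).re ^ 2 ≤ ‖fr (fun x => v x 1) (kap lam n)‖ ^ 2 := by
        rw [← sq_abs]
        exact pow_le_pow_left₀ (abs_nonneg _) (Complex.abs_re_le_norm _) 2
      have a2 : (fr (fun x => v x 2) (kap lam n)).im ^ 2 ≤ ‖fr (fun x => v x 2) (kap lam n)‖ ^ 2 := by
        rw [← sq_abs]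
        exact pow_le_pow_left₀ (abs_nonneg _) (Complex.abs_im_le_norm _) 2
      nlinarith [sq_nonneg ((fr (fun x => v x 1) (kap lam n)).re + (fr (fun x => v x 2) (kap lam n)).im),
        sq_nonneg ‖fr (fun x => v x 0) (kap lam n)‖]
    have h3 : 0 ≤ ((2 * Real.pi * (lam : ℝ) ^ n) ^ 2) ^ s := Real.rpow_nonneg (by positivity) _
    calc ((2 * Real.pi * (lam : ℝ) ^ n) ^ 2) ^ s * co lam v n ^ 2 ≤
        ((2 * Real.pi * (lam : ℝ) ^ n) ^ 2) ^ s * (2 * ∑ i, ‖fr (fun x => v x i) (kap lam n)‖ ^ 2) := by gcongr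
      _ = _ := by ring
  refine (Finset.sum_le_sum fun n _ => hterm n).trans ?_
  rw [← Finset.mul_sum]
  refine mul_le_mul_of_nonneg_left ?_ (by norm_num)
  have h4 : ∑ n ∈ Finset.range M, (if kap lam n = 0 then 0 else
      fq (kap lam n) ^ s * ∑ i, ‖fr (fun x => v x i) (kap lam n)‖ ^ 2) =
      ∑ k ∈ (Finset.range M).map ⟨kap lam, kap_inj hlam⟩, (if k = 0 then 0 else
        fq k ^ s * ∑ i, ‖fr (fun x => v x i) k‖ ^ 2) := by
    rw [Finset.sum_map]
    rfl
  rw [h4]
  exact hsum.sum_le_tsum _ fun k _ => h0 k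

theorem tri_sum {x y z : ℕ → ℝ} (hx0 : ∀ n, 0 ≤ x n) (hy0 : ∀ n, 0 ≤ y n) (hz0 : ∀ n, 0 ≤ z n) {X Y Z : ℝ}
    (hX : 0 ≤ X) (hY : 0 ≤ Y) (hZ : 0 ≤ Z) (hx : ∀ M, ∑ n ∈ Finset.range M, x n ^ 2 ≤ 2 * X ^ 2)
    (hy : ∀ M, ∑ n ∈ Finset.range M, y n ^ 2 ≤ 2 * Y ^ 2)
    (hz : ∀ M, ∑ n ∈ Finset.range M, z n ^ 2 ≤ 2 * Z ^ 2) (i j k M : ℕ) :
    ∑ m ∈ Finset.range M, x (m + i) * y (m + j) * z (m + k) ≤ 3 * (X * Y * Z) := by
  have shift : ∀ {w : ℕ → ℝ} {W : ℝ}, (∀ M, ∑ n ∈ Finset.range M, w n ^ 2 ≤ 2 * W ^ 2) → ∀ i M,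
      ∑ m ∈ Finset.range M, w (m + i) ^ 2 ≤ 2 * W ^ 2 := by
    intro w W hw i M
    refine le_trans ?_ (hw (i + M))
    rw [Finset.sum_range_add]
    have h1 : 0 ≤ ∑ n ∈ Finset.range i, w n ^ 2 := Finset.sum_nonneg fun n _ => sq_nonneg _
    have h2 : ∑ m ∈ Finset.range M, w (m + i) ^ 2 = ∑ m ∈ Finset.range M, w (i + m) ^ 2 :=
      Finset.sum_congr rfl fun m _ => by rw [add_comm]
    linarith
  set W := Real.sqrt (2 * Z ^ 2) with hW
  have hzW : ∀ n, z n ≤ W := by
    intro n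
    apply Real.le_sqrt_of_sq_le
    refine le_trans ?_ (hz (n + 1))
    exact Finset.single_le_sum (f := fun n => z n ^ 2) (fun n _ => sq_nonneg _) (by simp)
  have h1 : ∑ m ∈ Finset.range M, x (m + i) * y (m + j) * z (m + k) ≤
      (∑ m ∈ Finset.range M, x (m + i) * y (m + j)) * W := by
    rw [Finset.sum_mul]
    refine Finset.sum_le_sum fun m _ => ?_
    exact mul_le_mul_of_nonneg_left (hzW _) (mul_nonneg (hx0 _) (hy0 _))
  have h2 := Finset.sum_mul_sq_le_sq_mul_sq (Finset.range M) (fun m => x (m + i)) fun m => y (m + j)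
  have h3 := shift hx i M
  have h4 := shift hy j M
  have hS0 : 0 ≤ ∑ m ∈ Finset.range M, x (m + i) * y (m + j) :=
    Finset.sum_nonneg fun m _ => mul_nonneg (hx0 _) (hy0 _)
  have h5 : (∑ m ∈ Finset.range M, x (m + i) * y (m + j)) ^ 2 ≤ (2 * X ^ 2) * (2 * Y ^ 2) :=
    h2.trans (mul_le_mul h3 h4 (Finset.sum_nonneg fun m _ => sq_nonneg _) (by positivity))
  refine h1.trans ?_
  apply le_of_sq_le_sq _ (by positivity)
  have hW2 : W ^ 2 = 2 * Z ^ 2 := Real.sq_sqrt (by positivity)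
  rw [mul_pow, hW2]
  calc _ ≤ (2 * X ^ 2) * (2 * Y ^ 2) * (2 * Z ^ 2) := by gcongr
    _ ≤ (3 * (X * Y * Z)) ^ 2 := by
      have : 0 ≤ (X * Y * Z) ^ 2 := sq_nonneg _
      nlinarith

/-- **The scale-critical trilinear estimates.** -/
theorem casc_tri (hlam : 2 ≤ lam) (α β : ℝ) {a b c : ℝ} (habc : a + b + c = 5 / 2) {v w z : V → V}
    (hv : ∀ i, SP fun x => v x i) (hw : ∀ i, SP fun x => w x i) (hz : ∀ i, SP fun x => z x i) :
    |ip (casc lam ((lam : ℝ) ^ (5 / 2 : ℝ)) α β v w) z| ≤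
      6 * (|α| + |β|) * (lam : ℝ) ^ (|a| + |b| + |c|) * (sob a v * sob b w * sob c z) := by
  have hl1 : (1 : ℝ) ≤ lam := by
    have : 1 ≤ lam := by omega
    exact_mod_cast this
  have hl : (0 : ℝ) < lam := by linarith
  have hpi := Real.pi_gt_three
  set B : ℝ := (lam : ℝ) ^ (5 / 2 : ℝ) with hB
  have hB0 : 0 < B := Real.rpow_pos_of_pos hl _
  set f : ℕ → ℝ := fun n => 2 * Real.pi * (lam : ℝ) ^ n with hf
  have hf0 : ∀ n, 0 < f n := fun n => by simp only [hf]; positivity
  set x := co lam v with hx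
  set y := co lam w with hy
  set u := co lam z with hu
  set x' : ℕ → ℝ := fun n => f n ^ a * |x n| with hx'
  set y' : ℕ → ℝ := fun n => f n ^ b * |y n| with hy'
  set u' : ℕ → ℝ := fun n => f n ^ c * |u n| with hu'
  have x0 : ∀ n, 0 ≤ x' n := fun n => mul_nonneg (Real.rpow_nonneg (hf0 n).le _) (abs_nonneg _)
  have y0 : ∀ n, 0 ≤ y' n := fun n => mul_nonneg (Real.rpow_nonneg (hf0 n).le _) (abs_nonneg _)
  have u0 : ∀ n, 0 ≤ u' n := fun n => mul_nonneg (Real.rpow_nonneg (hf0 n).le _) (abs_nonneg _)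
  set L : ℝ := (lam : ℝ) ^ (|a| + |b| + |c|) with hL
  have hL0 : 0 < L := Real.rpow_pos_of_pos hl _
  -- one term
  have shiftf : ∀ (s : ℝ) (n i : ℕ), i ≤ 1 → f n ^ s ≤ (lam : ℝ) ^ |s| * f (n + i) ^ s := by
    intro s n i hi
    have h1 : 1 ≤ (lam : ℝ) ^ |s| := Real.one_le_rpow hl1 (abs_nonneg _)
    interval_cases i
    · rw [add_zero]
      exact le_mul_of_one_le_left (Real.rpow_nonneg (hf0 n).le _) h1
    · have e1 : f (n + 1) = lam * f n := by simp only [hf, pow_succ]; ring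
      rw [e1, Real.mul_rpow hl.le (hf0 n).le, ← mul_assoc, ← Real.rpow_add hl]
      refine le_mul_of_one_le_left (Real.rpow_nonneg (hf0 n).le _) (Real.one_le_rpow hl1 ?_)
      have := neg_abs_le s
      linarith
  have hterm : ∀ (n i j k : ℕ), i ≤ 1 → j ≤ 1 → k ≤ 1 →
      B ^ n * (|x (n + i)| * |y (n + j)| * |u (n + k)|) ≤ L * (x' (n + i) * y' (n + j) * u' (n + k)) := by
    intro n i j k hi hj hk
    have h1 : B ^ n ≤ f n ^ a * f n ^ b * f n ^ c := by
      rw [← Real.rpow_add (hf0 n), ← Real.rpow_add (hf0 n), habc, hB, Real.rpow_pow_comm hl.le]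
      apply Real.rpow_le_rpow (by positivity) _ (by norm_num)
      simp only [hf]
      have : 0 < (lam : ℝ) ^ n := by positivity
      nlinarith
    have h2 : f n ^ a * f n ^ b * f n ^ c ≤
        ((lam : ℝ) ^ |a| * f (n + i) ^ a) * ((lam : ℝ) ^ |b| * f (n + j) ^ b) * ((lam : ℝ) ^ |c| * f (n + k) ^ c) := by
      have q : ∀ (s : ℝ) (m : ℕ), 0 ≤ f m ^ s := fun s m => Real.rpow_nonneg (hf0 m).le _
      have q' : ∀ s : ℝ, 0 ≤ (lam : ℝ) ^ s := fun s => Real.rpow_nonneg hl.le _
      exact mul_le_mul (mul_le_mul (shiftf a n i hi) (shiftf b n j hj) (q _ _) (mul_nonneg (q' _) (q _ _)))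
        (shiftf c n k hk) (q _ _) (mul_nonneg (mul_nonneg (q' _) (q _ _)) (mul_nonneg (q' _) (q _ _)))
    calc B ^ n * (|x (n + i)| * |y (n + j)| * |u (n + k)|) ≤
        (((lam : ℝ) ^ |a| * f (n + i) ^ a) * ((lam : ℝ) ^ |b| * f (n + j) ^ b) * ((lam : ℝ) ^ |c| * f (n + k) ^ c)) *
          (|x (n + i)| * |y (n + j)| * |u (n + k)|) := by
          apply mul_le_mul_of_nonneg_right (h1.trans h2) (by positivity)
      _ = L * (x' (n + i) * y' (n + j) * u' (n + k)) := by
          rw [hL, Real.rpow_add hl, Real.rpow_add hl]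
          simp only [hx', hy', hu']
          ring
  -- the sums
  set P := sob a v * sob b w * sob c z with hP
  have hts : ∀ (i j k M : ℕ), ∑ m ∈ Finset.range M, x' (m + i) * y' (m + j) * u' (m + k) ≤ 3 * P :=
    fun i j k M => tri_sum x0 y0 u0 (Real.sqrt_nonneg _) (Real.sqrt_nonneg _) (Real.sqrt_nonneg _)
      (sum_co_le hlam a hv) (sum_co_le hlam b hw) (sum_co_le hlam c hz) i j k M
  have hS : ∀ (i j k M : ℕ), i ≤ 1 → j ≤ 1 → k ≤ 1 →
      ∑ n ∈ Finset.range M, B ^ n * (|x (n + i)| * |y (n + j)| * |u (n + k)|) ≤ L * (3 * P) := by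
    intro i j k M hi hj hk
    refine (Finset.sum_le_sum fun n _ => hterm n i j k hi hj hk).trans ?_
    rw [← Finset.mul_sum]
    exact mul_le_mul_of_nonneg_left (hts i j k M) hL0.le
  -- gains
  have hgain : ∀ M, ∑ n ∈ Finset.range M, |gainB α β B x y n * u n| ≤ (|α| + |β|) * (L * (3 * P)) := by
    intro M
    cases M with
    | zero =>
      simp only [Finset.range_zero, Finset.sum_empty]
      have : 0 ≤ P := mul_nonneg (mul_nonneg (Real.sqrt_nonneg _) (Real.sqrt_nonneg _)) (Real.sqrt_nonneg _)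
      positivity
    | succ M =>
      rw [Finset.sum_range_succ']
      have e0 : |gainB α β B x y 0 * u 0| = 0 := by simp [gainB]
      rw [e0, add_zero]
      have h1 : ∀ m ∈ Finset.range M, |gainB α β B x y (m + 1) * u (m + 1)| ≤
          |α| * (B ^ m * (|x (m + 0)| * |y (m + 0)| * |u (m + 1)|)) +
          |β| / 2 * (B ^ m * (|x (m + 0)| * |y (m + 1)| * |u (m + 1)|)) +
          |β| / 2 * (B ^ m * (|x (m + 1)| * |y (m + 0)| * |u (m + 1)|)) := by
        intro m _
        simp only [gainB, add_zero]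
        have hBm : 0 < B ^ m := by positivity
        rw [abs_mul, abs_mul, abs_of_pos hBm]
        have h2 : |α * (x m * y m) + β * ((x m * y (m + 1) + y m * x (m + 1)) / 2)| ≤
            |α| * (|x m| * |y m|) + |β| * ((|x m| * |y (m + 1)| + |y m| * |x (m + 1)|) / 2) := by
          refine (abs_add_le _ _).trans (add_le_add (by rw [abs_mul, abs_mul]) ?_)
          rw [abs_mul, abs_div, abs_two]
          refine mul_le_mul_of_nonneg_left ?_ (abs_nonneg _)
          refine div_le_div_of_nonneg_right ?_ (by norm_num)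
          refine (abs_add_le _ _).trans (le_of_eq ?_)
          rw [abs_mul, abs_mul]
        calc B ^ m * |α * (x m * y m) + β * ((x m * y (m + 1) + y m * x (m + 1)) / 2)| * |u (m + 1)| ≤
            B ^ m * (|α| * (|x m| * |y m|) + |β| * ((|x m| * |y (m + 1)| + |y m| * |x (m + 1)|) / 2)) *
              |u (m + 1)| := by gcongr
          _ = _ := by ring
      refine (Finset.sum_le_sum h1).trans ?_
      rw [Finset.sum_add_distrib, Finset.sum_add_distrib, ← Finset.mul_sum, ← Finset.mul_sum, ← Finset.mul_sum]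
      have b1 := mul_le_mul_of_nonneg_left (hS 0 0 1 M (by norm_num) (by norm_num) le_rfl) (abs_nonneg α)
      have b2 := mul_le_mul_of_nonneg_left (hS 0 1 1 M (by norm_num) le_rfl le_rfl) (by positivity : 0 ≤ |β| / 2)
      have b3 := mul_le_mul_of_nonneg_left (hS 1 0 1 M le_rfl (by norm_num) le_rfl) (by positivity : 0 ≤ |β| / 2)
      linarith
  -- losses
  have hloss : ∀ M, ∑ n ∈ Finset.range M, |B ^ n * (α * ((x n * y (n + 1) + y n * x (n + 1)) / 2) +
      β * (x (n + 1) * y (n + 1))) * u n| ≤ (|α| + |β|) * (L * (3 * P)) := by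
    intro M
    have h1 : ∀ m ∈ Finset.range M, |B ^ m * (α * ((x m * y (m + 1) + y m * x (m + 1)) / 2) +
        β * (x (m + 1) * y (m + 1))) * u m| ≤
        |α| / 2 * (B ^ m * (|x (m + 0)| * |y (m + 1)| * |u (m + 0)|)) +
        |α| / 2 * (B ^ m * (|x (m + 1)| * |y (m + 0)| * |u (m + 0)|)) +
        |β| * (B ^ m * (|x (m + 1)| * |y (m + 1)| * |u (m + 0)|)) := by
      intro m _
      simp only [add_zero]
      have hBm : 0 < B ^ m := by positivity
      rw [abs_mul, abs_mul, abs_of_pos hBm]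
      have h2 : |α * ((x m * y (m + 1) + y m * x (m + 1)) / 2) + β * (x (m + 1) * y (m + 1))| ≤
          |α| * ((|x m| * |y (m + 1)| + |y m| * |x (m + 1)|) / 2) + |β| * (|x (m + 1)| * |y (m + 1)|) := by
        refine (abs_add_le _ _).trans (add_le_add ?_ (by rw [abs_mul, abs_mul]))
        rw [abs_mul, abs_div, abs_two]
        refine mul_le_mul_of_nonneg_left ?_ (abs_nonneg _)
        refine div_le_div_of_nonneg_right ?_ (by norm_num)
        refine (abs_add_le _ _).trans (le_of_eq ?_)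
        rw [abs_mul, abs_mul]
      calc B ^ m * |α * ((x m * y (m + 1) + y m * x (m + 1)) / 2) + β * (x (m + 1) * y (m + 1))| * |u m| ≤
          B ^ m * (|α| * ((|x m| * |y (m + 1)| + |y m| * |x (m + 1)|) / 2) +
            |β| * (|x (m + 1)| * |y (m + 1)|)) * |u m| := by gcongr
        _ = _ := by ring
    refine (Finset.sum_le_sum h1).trans ?_
    rw [Finset.sum_add_distrib, Finset.sum_add_distrib, ← Finset.mul_sum, ← Finset.mul_sum, ← Finset.mul_sum]
    have b1 := mul_le_mul_of_nonneg_left (hS 0 1 0 M (by norm_num) le_rfl (by norm_num)) (by positivity : 0 ≤ |α| / 2)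
    have b2 := mul_le_mul_of_nonneg_left (hS 1 0 0 M le_rfl (by norm_num) (by norm_num)) (by positivity : 0 ≤ |α| / 2)
    have b3 := mul_le_mul_of_nonneg_left (hS 1 1 0 M le_rfl le_rfl (by norm_num)) (abs_nonneg β)
    linarith
  -- the pairing
  have hrs : RS (sh α β B x y) := (co_RS hlam hv).sh hB0 (co_RS hlam hw)
  have hsum := (ip_fld (lam := lam) hrs.summable_abs hz).tendsto_sum_nat
  rw [casc_eq]
  refine le_of_tendsto hsum.abs (Eventually.of_forall fun M => ?_)
  have h9 : ∀ n ∈ Finset.range M, |sh α β B x y n * u n| ≤ |gainB α β B x y n * u n| +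
      |B ^ n * (α * ((x n * y (n + 1) + y n * x (n + 1)) / 2) + β * (x (n + 1) * y (n + 1))) * u n| := by
    intro n _
    unfold sh
    rw [sub_mul]
    exact _root_.abs_sub _ _
  calc |∑ n ∈ Finset.range M, sh α β B x y n * u n| ≤ ∑ n ∈ Finset.range M, |sh α β B x y n * u n| :=
        Finset.abs_sum_le_sum_abs _ _
    _ ≤ _ := Finset.sum_le_sum h9
    _ = _ := Finset.sum_add_distrib
    _ ≤ (|α| + |β|) * (L * (3 * P)) + (|α| + |β|) * (L * (3 * P)) := add_le_add (hgain M) (hloss M)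
    _ = 6 * (|α| + |β|) * L * P := by ring

end Pool.Agent.H39.PDE
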