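import Pool.Agent.H39.PDE.Psi
import Pool.Agent.H39.Dy.Identity

/-!
# The cascade operator
-/

open MeasureTheory Set Filter Topology
open scoped ContDiff

namespace Pool.Agent.H39.PDE

open H459R3.NS (V K3 Per cube SP pd lap ee fr)
open Pool.Agent.H39.Dy (gain)
open Pool.Agent.K1H11.NS (Ev.SF)

/-- what shell `n` gains from shell `n - 1` (symmetric bilinear form of `gain`) -/
noncomputable def gainB (α β B : ℝ) (x y : ℕ → ℝ) : ℕ → ℝ
  | 0 => 0
  | m + 1 => B ^ m * (α * (x m * y m) + β * ((x m * y (m + 1) + y m * x (m + 1)) / 2))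

/-- The symmetric bilinear form of the dyadic nonlinearity. -/
noncomputable def sh (α β B : ℝ) (x y : ℕ → ℝ) (n : ℕ) : ℝ :=
  gainB α β B x y n -
    B ^ n * (α * ((x n * y (n + 1) + y n * x (n + 1)) / 2) + β * (x (n + 1) * y (n + 1)))

/-- **The cascade operator** `C(v, w) = ∑ₙ c_n(⟨v, ψ⟩, ⟨w, ψ⟩) ψ_n`. -/
noncomputable def casc (lam : ℕ) (B α β : ℝ) (v w : V → V) (x : V) : V := fun i =>
  ∑' n, sh α β B (co lam v) (co lam w) n * psi lam n x i

theorem gainB_self (α β B : ℝ) (x : ℕ → ℝ) (n : ℕ) : gainB α β B x x n = gain α β B x n := by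
  cases n with
  | zero => rfl
  | succ m => simp only [gainB, gain]; ring

theorem sh_self (α β B : ℝ) (x : ℕ → ℝ) (n : ℕ) :
    sh α β B x x n = gain α β B x n - B ^ n * x (n + 1) * (α * x n + β * x (n + 1)) := by
  rw [sh, gainB_self]
  ring

theorem sh_comm (α β B : ℝ) (x y : ℕ → ℝ) : sh α β B x y = sh α β B y x := by
  funext n
  cases n with
  | zero => simp only [sh, gainB]; ring
  | succ m => simp only [sh, gainB]; ring

theorem sh_add (α β B : ℝ) (x x' y : ℕ → ℝ) (n : ℕ) :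
    sh α β B (fun k => x k + x' k) y n = sh α β B x y n + sh α β B x' y n := by
  cases n with
  | zero => simp only [sh, gainB]; ring
  | succ m => simp only [sh, gainB]; ring

theorem sh_smul (α β B a : ℝ) (x y : ℕ → ℝ) (n : ℕ) :
    sh α β B (fun k => a * x k) y n = a * sh α β B x y n := by
  cases n with
  | zero => simp only [sh, gainB]; ring
  | succ m => simp only [sh, gainB]; ring

/-- rapidly decreasing sequences -/
def RS (x : ℕ → ℝ) : Prop := ∀ s : ℝ, 0 < s → ∃ C : ℝ, ∀ n, s ^ n * |x n| ≤ C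

theorem RS.exists_nonneg {x : ℕ → ℝ} (hx : RS x) {s : ℝ} (hs : 0 < s) :
    ∃ C : ℝ, 0 ≤ C ∧ ∀ n, s ^ n * |x n| ≤ C := by
  obtain ⟨C, hC⟩ := hx s hs
  exact ⟨C, (mul_nonneg (by positivity) (abs_nonneg _)).trans (hC 0), hC⟩

theorem RS.summable {x : ℕ → ℝ} (hx : RS x) {s : ℝ} (hs : 0 < s) : Summable fun n => s ^ n * |x n| := by
  obtain ⟨C, hC0, hC⟩ := hx.exists_nonneg (s := 2 * s) (by positivity)
  refine Summable.of_nonneg_of_le (fun n => by positivity) (fun n => ?_)
    ((summable_geometric_of_lt_one (r := 1 / 2) (by norm_num) (by norm_num)).mul_left C)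
  have := hC n
  rw [mul_pow] at this
  rw [one_div, inv_pow, ← div_eq_mul_inv, le_div_iff₀ (by positivity)]
  linarith

theorem RS.summable_abs {x : ℕ → ℝ} (hx : RS x) : Summable fun n => |x n| := by
  simpa using hx.summable one_pos

theorem RS.mul_bdd {x y : ℕ → ℝ} (hx : RS x) {K : ℝ} (hy : ∀ n, |y n| ≤ K) : RS fun n => x n * y n := by
  intro s hs
  obtain ⟨C, hC0, hC⟩ := hx.exists_nonneg hs
  refine ⟨C * K, fun n => ?_⟩
  rw [abs_mul, ← mul_assoc]
  exact mul_le_mul (hC n) (hy n) (abs_nonneg _) hC0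

theorem RS.add {x y : ℕ → ℝ} (hx : RS x) (hy : RS y) : RS fun n => x n + y n := by
  intro s hs
  obtain ⟨C, hC⟩ := hx s hs
  obtain ⟨C', hC'⟩ := hy s hs
  refine ⟨C + C', fun n => ?_⟩
  have h0 : 0 ≤ s ^ n := by positivity
  have := mul_le_mul_of_nonneg_left (abs_add_le (x n) (y n)) h0
  have := hC n
  have := hC' n
  linarith

theorem RS.const_mul {x : ℕ → ℝ} (hx : RS x) (a : ℝ) : RS fun n => a * x n := by
  intro s hs
  obtain ⟨C, hC⟩ := hx s hs
  refine ⟨|a| * C, fun n => ?_⟩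
  rw [abs_mul]
  have := mul_le_mul_of_nonneg_left (hC n) (abs_nonneg a)
  linarith

theorem RS.pow_mul {x : ℕ → ℝ} (hx : RS x) {B : ℝ} (hB : 0 < B) : RS fun n => B ^ n * x n := by
  intro s hs
  obtain ⟨C, hC⟩ := hx (s * B) (by positivity)
  refine ⟨C, fun n => ?_⟩
  rw [abs_mul, abs_of_pos (by positivity : 0 < B ^ n), ← mul_assoc, ← mul_pow]
  exact hC n

theorem RS.succ {x : ℕ → ℝ} (hx : RS x) : RS fun n => x (n + 1) := by
  intro s hs
  obtain ⟨C, hC⟩ := hx s hs
  refine ⟨C / s, fun n => ?_⟩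
  rw [le_div_iff₀ hs]
  have := hC (n + 1)
  rw [pow_succ] at this
  linarith

theorem RS.pred {x : ℕ → ℝ} (hx : RS x) {y : ℕ → ℝ} (h : ∀ n, y (n + 1) = x n) : RS y := by
  intro s hs
  obtain ⟨C, hC⟩ := hx s hs
  refine ⟨max |y 0| (s * C), fun n => ?_⟩
  cases n with
  | zero => simp
  | succ m =>
    refine le_trans ?_ (le_max_right _ _)
    rw [h m, pow_succ]
    have := mul_le_mul_of_nonneg_left (hC m) hs.le
    linarith

theorem RS.bdd {x : ℕ → ℝ} (hx : RS x) : ∃ K : ℝ, ∀ n, |x n| ≤ K := by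
  obtain ⟨C, hC⟩ := hx 1 one_pos
  exact ⟨C, fun n => by simpa using hC n⟩

theorem RS.sh {α β B : ℝ} (hB : 0 < B) {x y : ℕ → ℝ} (hx : RS x) (hy : RS y) : RS (sh α β B x y) := by
  obtain ⟨K, hK⟩ := hy.bdd
  obtain ⟨L, hL⟩ := hx.bdd
  have h1 : RS (gainB α β B x y) := by
    refine RS.pred (x := fun m => B ^ m * (α * (x m * y m) + β * ((x m * y (m + 1) + y m * x (m + 1)) / 2)))
      (RS.pow_mul ?_ hB) fun n => rfl
    refine (RS.const_mul (hx.mul_bdd hK) α).add (RS.const_mul ?_ β)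
    have := ((hx.mul_bdd (y := fun m => y (m + 1)) fun n => hK _).add
      (hy.mul_bdd (y := fun m => x (m + 1)) fun n => hL _)).const_mul (1 / 2)
    intro s hs
    obtain ⟨C, hC⟩ := this s hs
    refine ⟨C, fun n => ?_⟩
    have e : (x n * y (n + 1) + y n * x (n + 1)) / 2 = 1 / 2 * (x n * y (n + 1) + y n * x (n + 1)) := by ring
    show s ^ n * |(x n * y (n + 1) + y n * x (n + 1)) / 2| ≤ C
    rw [e]
    exact hC n
  have h2 : RS fun n => B ^ n * (α * ((x n * y (n + 1) + y n * x (n + 1)) / 2) + β * (x (n + 1) * y (n + 1))) := by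
    refine RS.pow_mul ?_ hB
    refine RS.add (RS.const_mul ?_ α) (RS.const_mul ?_ β)
    · have := ((hx.mul_bdd (y := fun m => y (m + 1)) fun n => hK _).add
        (hy.mul_bdd (y := fun m => x (m + 1)) fun n => hL _)).const_mul (1 / 2)
      intro s hs
      obtain ⟨C, hC⟩ := this s hs
      refine ⟨C, fun n => ?_⟩
      have e : (x n * y (n + 1) + y n * x (n + 1)) / 2 = 1 / 2 * (x n * y (n + 1) + y n * x (n + 1)) := by ring
      show s ^ n * |(x n * y (n + 1) + y n * x (n + 1)) / 2| ≤ C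
      rw [e]
      exact hC n
    · exact (hx.succ).mul_bdd (y := fun m => y (m + 1)) fun n => hK _
  have h3 := h1.add (h2.const_mul (-1))
  intro s hs
  obtain ⟨C, hC⟩ := h3 s hs
  refine ⟨C, fun n => ?_⟩
  have e : PDE.sh α β B x y n = gainB α β B x y n + -1 * (B ^ n * (α * ((x n * y (n + 1) + y n * x (n + 1)) / 2) +
      β * (x (n + 1) * y (n + 1)))) := by
    unfold PDE.sh
    ring
  rw [e]
  exact hC n

section coefficients

variable {lam : ℕ}

/-- the frequency of `ψ_n` -/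
def kap (lam n : ℕ) : K3 := Pi.single 0 ((lam : ℤ) ^ n)

theorem N_kap (n : ℕ) : H459R3.NS.N (kap lam n) = lam ^ n := by
  unfold H459R3.NS.N kap
  apply le_antisymm
  · apply Finset.sup_le
    intro j _
    by_cases hj : j = 0
    · subst hj; simp [Int.natAbs_pow]
    · simp [hj]
  · have := Finset.le_sup (f := fun j => ((Pi.single 0 ((lam : ℤ) ^ n) : K3) j).natAbs) (Finset.mem_univ (0 : Fin 3))
    simpa [Int.natAbs_pow] using this

theorem ee_kap (n : ℕ) (x : V) : ee (-kap lam n) x =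
    ((Real.cos (2 * Real.pi * lam ^ n * x 0) : ℝ) : ℂ) - ((Real.sin (2 * Real.pi * lam ^ n * x 0) : ℝ) : ℂ) * Complex.I := by
  have h1 : H459R3.NS.ph (-kap lam n) x = -((lam : ℝ) ^ n * x 0) := by
    simp [H459R3.NS.ph, Fin.sum_univ_three, kap]
  rw [ee, h1]
  have h2 : 2 * (Real.pi : ℂ) * Complex.I * ((-((lam : ℝ) ^ n * x 0) : ℝ) : ℂ) =
      ((-(2 * Real.pi * lam ^ n * x 0) : ℝ) : ℂ) * Complex.I := by push_cast; ring
  rw [h2, Complex.exp_mul_I, ← Complex.ofReal_cos, ← Complex.ofReal_sin, Real.cos_neg, Real.sin_neg]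
  push_cast
  ring

theorem re_aux (c s v : ℝ) : (((c : ℂ) - (s : ℂ) * Complex.I) * (v : ℂ)).re = v * c := by
  simp; ring

theorem im_aux (c s v : ℝ) : (((c : ℂ) - (s : ℂ) * Complex.I) * (v : ℂ)).im = -(v * s) := by
  simp; ring

/-- the coefficients in terms of the Fourier coefficients -/
theorem co_eq_fr {v : V → V} (hv : ∀ i, SP fun x => v x i) (n : ℕ) :
    co lam v n = (fr (fun x => v x 1) (kap lam n)).re - (fr (fun x => v x 2) (kap lam n)).im := by
  unfold co H459R3.NS.fr H459R3.NS.fc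
  have hint : ∀ i, IntegrableOn (fun x => ee (-kap lam n) x * ((v x i : ℝ) : ℂ)) cube := fun i =>
    H459R3.NS.integrableOn_cube ((H459R3.NS.ee_continuous _).mul (Complex.continuous_ofReal.comp (hv i).cont))
  have h1 : (∫ x in cube, ee (-kap lam n) x * ((v x 1 : ℝ) : ℂ)).re =
      ∫ x in cube, v x 1 * psi lam n x 1 := by
    rw [← RCLike.re_eq_complex_re, ← integral_re (hint 1)]
    congr 1
    funext x
    rw [RCLike.re_eq_complex_re, ee_kap, psi_one, re_aux]
  have h2 : (∫ x in cube, ee (-kap lam n) x * ((v x 2 : ℝ) : ℂ)).im =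
      -∫ x in cube, v x 2 * psi lam n x 2 := by
    rw [← RCLike.im_eq_complex_im, ← integral_im (hint 2), ← integral_neg]
    congr 1
    funext x
    rw [RCLike.im_eq_complex_im, ee_kap, psi_two, im_aux]
  rw [h1, h2, integral_finsetSum _ fun i _ => ((hv i).mul (sp_psi n i)).int, Fin.sum_univ_three]
  simp only [psi_zero, mul_zero, integral_zero]
  ring

/-- uniform decay of the coefficients of a smooth evolution -/
theorem co_rapid (hlam : 2 ≤ lam) {T : ℝ} {u : ℝ → V → V} (hu : ∀ i, Ev.SF T fun t x => u t x i) {b : ℝ}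
    (hb : b < T) : Dy.Rapid b fun n t => co lam (u t) n := by
  intro s hs
  obtain ⟨m, hm⟩ := pow_unbounded_of_one_lt s (show (1 : ℝ) < lam by
    have : (2 : ℝ) ≤ lam := by exact_mod_cast hlam
    linarith)
  obtain ⟨C1, hC1, h1⟩ := (hu 1).fr_bound hb m
  obtain ⟨C2, hC2, h2⟩ := (hu 2).fr_bound hb m
  refine ⟨C1 + C2, fun n t ht => ?_⟩
  have hI : t ∈ Ico 0 T := ⟨ht.1, ht.2.trans_lt hb⟩
  have e := co_eq_fr (lam := lam) (v := u t) (fun i => (hu i).sp hI) n
  have a1 := h1 t ht (kap lam n)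
  have a2 := h2 t ht (kap lam n)
  rw [N_kap] at a1 a2
  have hsn : s ^ n ≤ (((lam ^ n : ℕ) : ℝ)) ^ m := by
    have : (((lam ^ n : ℕ) : ℝ)) ^ m = ((lam : ℝ) ^ m) ^ n := by
      push_cast
      rw [← pow_mul, ← pow_mul, mul_comm]
    rw [this]
    exact pow_le_pow_left₀ hs.le hm.le n
  have hp : (0 : ℝ) ≤ (((lam ^ n : ℕ) : ℝ)) ^ m := by positivity
  have h3 : |co lam (u t) n| ≤ ‖fr (fun x => u t x 1) (kap lam n)‖ + ‖fr (fun x => u t x 2) (kap lam n)‖ := by
    rw [e]
    refine (abs_sub _ _).trans (add_le_add ?_ ?_)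
    · exact Complex.abs_re_le_norm _
    · exact Complex.abs_im_le_norm _
  calc s ^ n * |co lam (u t) n| ≤ (((lam ^ n : ℕ) : ℝ)) ^ m *
      (‖fr (fun x => u t x 1) (kap lam n)‖ + ‖fr (fun x => u t x 2) (kap lam n)‖) := by gcongr
    _ ≤ C1 + C2 := by rw [mul_add]; exact add_le_add a1 a2

/-- decay of the coefficients of a smooth field -/
theorem co_RS (hlam : 2 ≤ lam) {v : V → V} (hv : ∀ i, SP fun x => v x i) : RS (co lam v) := by
  have hu : ∀ i, Ev.SF 2 fun (_ : ℝ) x => v x i := fun i =>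
    ⟨((hv i).smooth.comp contDiff_snd).contDiffOn, fun _ _ => (hv i).per⟩
  intro s hs
  obtain ⟨C, hC⟩ := co_rapid hlam (u := fun _ => v) hu (b := 1) (by norm_num) s hs
  exact ⟨C, fun n => hC n 0 ⟨le_rfl, zero_le_one⟩⟩

/-- the coefficients of a series -/
theorem co_series (hlam : 2 ≤ lam) {a : ℕ → ℝ} (ha : Summable fun n => |a n|) (m : ℕ) :
    co lam (fun x i => ∑' n, a n * psi lam n x i) m = a m := by
  have hs : ∀ (x : V) i, Summable fun n => a n * psi lam n x i := by
    intro x i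
    refine Summable.of_norm_bounded ha fun n => ?_
    rw [Real.norm_eq_abs, abs_mul]
    exact mul_le_of_le_one_right (abs_nonneg _) (abs_psi_le n x i)
  set F : ℕ → V → ℝ := fun n x => a n * ∑ i, psi lam n x i * psi lam m x i with hF
  have hpt : ∀ x : V, ∑ i, (∑' n, a n * psi lam n x i) * psi lam m x i = ∑' n, F n x := by
    intro x
    rw [Fin.sum_univ_three, ← tsum_mul_right, ← tsum_mul_right, ← tsum_mul_right,
      ← ((hs x 0).mul_right _).tsum_add ((hs x 1).mul_right _),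
      ← (((hs x 0).mul_right _).add ((hs x 1).mul_right _)).tsum_add ((hs x 2).mul_right _)]
    refine tsum_congr fun n => ?_
    simp only [hF, Fin.sum_univ_three]
    ring
  have hFc : ∀ n, Continuous (F n) := fun n =>
    continuous_const.mul (continuous_finsetSum _ fun i _ => (sp_psi n i).cont.mul (sp_psi m i).cont)
  have hFb : ∀ n x, ‖F n x‖ ≤ 3 * |a n| := by
    intro n x
    rw [Real.norm_eq_abs, abs_mul]
    have : |∑ i, psi lam n x i * psi lam m x i| ≤ 3 := by
      refine (Finset.abs_sum_le_sum_abs _ _).trans ?_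
      have : ∀ i ∈ (Finset.univ : Finset (Fin 3)), |psi lam n x i * psi lam m x i| ≤ 1 := by
        intro i _
        rw [abs_mul]
        exact mul_le_one₀ (abs_psi_le n x i) (abs_nonneg _) (abs_psi_le m x i)
      refine (Finset.sum_le_sum this).trans ?_
      simp
    nlinarith [abs_nonneg (a n)]
  have := H459R3.NS.cube_finite
  have hFint : ∀ n, Integrable (F n) (volume.restrict cube) := fun n => H459R3.NS.integrableOn_cube (hFc n)
  have hFsum : Summable fun n => ∫ x in cube, ‖F n x‖ := by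
    refine Summable.of_nonneg_of_le (fun n => integral_nonneg fun x => norm_nonneg _) (fun n => ?_)
      (ha.mul_left 3)
    have h1 : ∫ x in cube, ‖F n x‖ ≤ ∫ _ in cube, 3 * |a n| :=
      integral_mono (hFint n).norm (integrable_const _) fun x => hFb n x
    refine h1.trans (le_of_eq ?_)
    simp [Measure.real, H459R3.NS.volume_cube]
  unfold co
  simp_rw [hpt]
  rw [← integral_tsum_of_summable_integral_norm hFint hFsum]
  have h2 : ∀ n, ∫ x in cube, F n x = if n = m then a m else 0 := by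
    intro n
    simp only [hF]
    rw [integral_const_mul, orth hlam]
    by_cases h : n = m
    · subst h; simp
    · simp [h]
  simp_rw [h2]
  rw [tsum_ite_eq]

/-- the coefficients of the cascade operator -/
theorem co_casc (hlam : 2 ≤ lam) {α β B : ℝ} (hB : 0 < B) {v w : V → V} (hv : ∀ i, SP fun x => v x i)
    (hw : ∀ i, SP fun x => w x i) (n : ℕ) :
    co lam (casc lam B α β v w) n = sh α β B (co lam v) (co lam w) n :=
  co_series hlam ((co_RS hlam hv).sh hB (co_RS hlam hw)).summable_abs n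

end coefficients

end Pool.Agent.H39.PDE
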