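import Pool.Agent.H39.PDE.Casc

/-!
# From the partial differential equation to the dyadic system
-/

open MeasureTheory Set Filter Topology
open scoped ContDiff

namespace Pool.Agent.H39.PDE

open H459R3.NS (V K3 Per cube SP pd lap ee fr)
open Pool.Agent.H39.Dy (gain IsSol Rapid)
open Pool.Agent.K1H11.NS (Ev.SF IsSolF)

/-- `(u, p)` is a smooth `1`-periodic solution on the time interval `[0, T)` of
`∂ₜ u + θ (u·∇) u = ν Δ u - ∇ p + C(u, u)`, `div u = 0`: `u` and `p` are `C^∞` on `[0, T) × ℝ³` and
`1`-periodic in each coordinate of `x`. -/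
structure Sol (θ : ℝ) (lam : ℕ) (B α β ν T : ℝ) (u : ℝ → V → V) (p : ℝ → V → ℝ) : Prop where
  smooth_u : ContDiffOn ℝ ∞ (fun z : ℝ × V => u z.1 z.2) (Ico 0 T ×ˢ univ)
  smooth_p : ContDiffOn ℝ ∞ (fun z : ℝ × V => p z.1 z.2) (Ico 0 T ×ˢ univ)
  per_u : ∀ t ∈ Ico 0 T, Per (u t)
  per_p : ∀ t ∈ Ico 0 T, Per (p t)
  divfree : ∀ t ∈ Ico 0 T, ∀ x, ∑ i, pd i (fun y => u t y i) x = 0
  momentum : ∀ t ∈ Ioo 0 T, ∀ x i,
    deriv (fun s => u s x i) t + θ * ∑ j, u t x j * pd j (fun y => u t y i) x
      = ν * lap (fun y => u t y i) x - pd i (p t) x + casc lam B α β (u t) (u t) x i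

variable {θ : ℝ} {lam : ℕ} {B α β ν T : ℝ} {u : ℝ → V → V} {p : ℝ → V → ℝ}

theorem Sol.SF (h : Sol θ lam B α β ν T u p) (i : Fin 3) : Ev.SF T fun s y => u s y i :=
  ⟨(contDiffOn_pi.1 h.smooth_u) i, fun s hs j x => by simp only [h.per_u s hs j x]⟩

theorem Sol.SFp (h : Sol θ lam B α β ν T u p) : Ev.SF T p := ⟨h.smooth_p, h.per_p⟩

theorem Sol.sp (h : Sol θ lam B α β ν T u p) {t : ℝ} (ht : t ∈ Ico 0 T) (i : Fin 3) :
    SP fun x => u t x i := (h.SF i).sp ht

/-- no contribution of gradients -/
theorem co_grad {q : V → ℝ} (hq : SP q) (n : ℕ) : co lam (fun x i => pd i q x) n = 0 := by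
  unfold co
  rw [integral_finsetSum _ fun i _ => ((hq.pd i).mul (sp_psi n i)).int]
  have h := H459R3.NS.int_press (v := fun i x => psi lam n x i) (fun i => sp_psi n i) (div_psi n) hq
  rw [← h]
  refine Finset.sum_congr rfl fun i _ => ?_
  congr 1; funext x; ring

/-- the coefficients as functions of time -/
theorem co_hasDerivAt (hu : ∀ i, Ev.SF T fun t x => u t x i) {t : ℝ} (ht : t ∈ Ioo 0 T) (n : ℕ) :
    HasDerivAt (fun s => co lam (u s) n) (co lam (fun x i => deriv (fun s => u s x i) t) n) t := by
  have hF : ContDiffOn ℝ 1 (fun z : ℝ × V => ∑ i, u z.1 z.2 i * psi lam n z.2 i) (Ioo 0 T ×ˢ univ) := by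
    refine ContDiffOn.sum fun i _ => ?_
    refine (H459R3.NS.mono_Ioo (f := fun t x => u t x i) (hu i).smooth (by norm_cast)).mul ?_
    exact (((sp_psi n i).smooth.of_le (by norm_cast)).comp contDiff_snd).contDiffOn
  have key := H459R3.NS.hasDerivAt_int (F := fun s x => ∑ i, u s x i * psi lam n x i) hF ht
  refine key.congr_deriv ?_
  unfold co
  congr 1
  funext x
  have h2 : ∀ i, HasDerivAt (fun s => u s x i) (deriv (fun s => u s x i) t) t := fun i =>
    (H459R3.NS.hasDerivAt_slice (F := fun s y => u s y i) (H459R3.NS.mono_Ioo (f := fun s y => u s y i)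
      (hu i).smooth (n := 1) (by norm_cast)) ht x).differentiableAt.hasDerivAt
  have h3 : HasDerivAt (fun s => ∑ i, u s x i * psi lam n x i)
      (∑ i, deriv (fun s => u s x i) t * psi lam n x i) t :=
    HasDerivAt.fun_sum fun i _ => (h2 i).mul_const _
  exact h3.deriv

theorem co_continuousOn (hu : ∀ i, Ev.SF T fun t x => u t x i) (n : ℕ) :
    ContinuousOn (fun s => co lam (u s) n) (Ico 0 T) := by
  refine H459R3.NS.continuousOn_int (F := fun s x => ∑ i, u s x i * psi lam n x i) ?_
  refine continuousOn_finsetSum _ fun i _ => ?_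
  exact (hu i).smooth.continuousOn.mul ((sp_psi n i).cont.comp continuous_snd).continuousOn

/-- If the convection term vanishes, the coefficients solve the dyadic system. -/
theorem dyadic (hlam : 2 ≤ lam) (hB : 0 < B) (hu : ∀ i, Ev.SF T fun t x => u t x i) (hp : Ev.SF T p)
    (heq : ∀ t ∈ Ioo 0 T, ∀ x i, deriv (fun s => u s x i) t =
      ν * lap (fun y => u t y i) x - pd i (p t) x + casc lam B α β (u t) (u t) x i) {b : ℝ} (hb : b < T) :
    IsSol α β B ((lam : ℝ) ^ 2) (4 * Real.pi ^ 2 * ν) b (fun n t => co lam (u t) n) := by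
  set X : ℕ → ℝ → ℝ := fun n t => co lam (u t) n with hX
  set f : ℕ → ℝ → ℝ := fun n t => gain α β B (fun k => X k t) n -
    4 * Real.pi ^ 2 * ν * ((lam : ℝ) ^ 2) ^ n * X n t - B ^ n * X (n + 1) t * (α * X n t + β * X (n + 1) t)
    with hf
  have hder : ∀ n, ∀ t ∈ Ioo 0 T, HasDerivAt (X n) (f n t) t := by
    intro n t ht
    refine (co_hasDerivAt hu ht n).congr_deriv ?_
    have hI : t ∈ Ico 0 T := ⟨ht.1.le, ht.2⟩
    have hsp : ∀ i, SP fun x => u t x i := fun i => (hu i).sp hI
    have hrs : RS (sh α β B (co lam (u t)) (co lam (u t))) := (co_RS hlam hsp).sh hB (co_RS hlam hsp)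
    have e1 : (fun x i => deriv (fun s => u s x i) t) = fun x i =>
        (ν * lap (fun y => u t y i) x + (-1) * pd i (p t) x) + casc lam B α β (u t) (u t) x i := by
      funext x i
      rw [heq t ht x i]
      ring
    have hs1 : ∀ i, IntegrableOn (fun x => (ν * lap (fun y => u t y i) x + (-1) * pd i (p t) x) * psi lam n x i) cube := by
      intro i
      refine H459R3.NS.integrableOn_cube ?_
      exact ((continuous_const.mul (hsp i).lap.cont).add (continuous_const.mul ((hp.sp hI).pd i).cont)).mul
        (sp_psi n i).cont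
    have hcc : ∀ i, Continuous fun x => casc lam B α β (u t) (u t) x i := by
      intro i
      refine continuous_tsum (fun n => continuous_const.mul (sp_psi n i).cont) hrs.summable_abs fun n x => ?_
      rw [Real.norm_eq_abs, abs_mul]
      exact mul_le_of_le_one_right (abs_nonneg _) (abs_psi_le n x i)
    have hs2 : ∀ i, IntegrableOn (fun x => casc lam B α β (u t) (u t) x i * psi lam n x i) cube := fun i =>
      H459R3.NS.integrableOn_cube ((hcc i).mul (sp_psi n i).cont)
    have e2 : co lam (fun x i => (ν * lap (fun y => u t y i) x + (-1) * pd i (p t) x) +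
        casc lam B α β (u t) (u t) x i) n = co lam (fun x i => ν * lap (fun y => u t y i) x + (-1) * pd i (p t) x) n +
        co lam (casc lam B α β (u t) (u t)) n := by
      unfold co
      rw [← integral_add]
      · congr 1
        funext x
        rw [← Finset.sum_add_distrib]
        exact Finset.sum_congr rfl fun i _ => by ring
      · exact integrable_finsetSum _ fun i _ => hs1 i
      · exact integrable_finsetSum _ fun i _ => hs2 i
    have spc : ∀ (a : ℝ) {g : V → ℝ}, SP g → SP fun x => a * g x := fun a g hg =>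
      ⟨contDiff_const.mul hg.smooth, fun i x => by simp only [hg.per i x]⟩
    rw [e1, e2, co_casc hlam hB hsp hsp, co_add (v := fun x i => ν * lap (fun y => u t y i) x)
      (w := fun x i => (-1) * pd i (p t) x) (fun i => spc ν (hsp i).lap) (fun i => spc (-1) ((hp.sp hI).pd i)),
      co_smul (fun x i => lap (fun y => u t y i) x), co_lap hsp, co_smul (fun x i => pd i (p t) x),
      co_grad (hp.sp hI), sh_self]
    simp only [hf, hX]
    have e3 : (2 * Real.pi * (lam : ℝ) ^ n) ^ 2 = 4 * Real.pi ^ 2 * ((lam : ℝ) ^ 2) ^ n := by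
      rw [mul_pow, ← pow_mul, ← pow_mul, mul_comm n 2]; ring
    rw [e3]
    ring
  have hcont : ∀ n, ContinuousOn (X n) (Ico 0 T) := fun n => co_continuousOn hu n
  have hfc : ∀ n, ContinuousOn (f n) (Ico 0 T) := by
    intro n
    have hg : ContinuousOn (fun t => gain α β B (fun k => X k t) n) (Ico 0 T) := by
      cases n with
      | zero => exact continuousOn_const
      | succ m =>
        exact (continuousOn_const.mul (hcont m)).mul
          ((continuousOn_const.mul (hcont m)).add (continuousOn_const.mul (hcont (m + 1))))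
    exact (hg.sub (continuousOn_const.mul (hcont n))).sub ((continuousOn_const.mul (hcont (n + 1))).mul
      ((continuousOn_const.mul (hcont n)).add (continuousOn_const.mul (hcont (n + 1)))))
  intro n t ht
  have hT : t < T := ht.2.trans_lt hb
  rcases ht.1.eq_or_lt with h0 | h0
  · subst h0
    have hI : Ioo 0 T ∈ 𝓝[>] (0 : ℝ) := Ioo_mem_nhdsGT hT
    have h1 : HasDerivWithinAt (X n) (f n 0) (Ici 0) 0 := by
      refine hasDerivWithinAt_Ici_of_tendsto_deriv (s := Ioo 0 T)
        (fun s hs => (hder n s hs).differentiableAt.differentiableWithinAt)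
        (((hcont n) 0 ⟨le_rfl, hT⟩).mono Ioo_subset_Ico_self) hI ?_
      have h2 : Tendsto (f n) (𝓝[>] 0) (𝓝 (f n 0)) := by
        have h3 : ContinuousWithinAt (f n) (Ioo 0 T) 0 := ((hfc n) 0 ⟨le_rfl, hT⟩).mono Ioo_subset_Ico_self
        have h4 : 𝓝[Ioo 0 T] (0 : ℝ) = 𝓝[>] 0 := nhdsWithin_Ioo_eq_nhdsGT hT
        unfold ContinuousWithinAt at h3
        rwa [h4] at h3
      refine h2.congr' ?_
      filter_upwards [hI] with s hs
      exact (hder n s hs).deriv.symm
    exact h1.mono fun s hs => hs.1
  · exact (hder n t ⟨h0, hT⟩).hasDerivWithinAt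

/-! ### The shear class -/

/-- Solutions of the equation with convection whose datum does not depend on `x₂`, `x₃` and has vanishing
first component stay in this class. -/
theorem Sol.shear (hν : 0 ≤ ν) (hlam : 2 ≤ lam) (hB : 0 < B) (h : Sol 1 lam B α β ν T u p)
    (h0 : ∀ j : Fin 3, j ≠ 0 → ∀ (r : ℝ) x, u 0 (x + Pi.single j r) = u 0 x) (h1 : ∀ x, u 0 x 0 = 0) :
    ∀ t ∈ Ico 0 T, ∀ x i, ∑ j, u t x j * pd j (fun y => u t y i) x = 0 := by
  -- invariance by uniqueness
  have hinv : ∀ j : Fin 3, j ≠ 0 → ∀ (r : ℝ), ∀ t ∈ Ico 0 T, ∀ x, u t (x + Pi.single j r) = u t x := by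
    intro j hj r t ht
    set e : V := Pi.single j r with he
    have hpd : ∀ (g : V → ℝ) (i : Fin 3) (x : V), pd i (fun y => g (y + e)) x = pd i g (x + e) := by
      intro g i x
      unfold pd
      rw [fderiv_comp_add_right]
    have hA : ContDiff ℝ ∞ fun z : ℝ × V => ((z.1, z.2 + e) : ℝ × V) := by fun_prop
    have s1 : IsSolF ν T (fun t => casc lam B α β (u t) (u t)) u p :=
      ⟨h.smooth_u, h.smooth_p, h.per_u, h.per_p, h.divfree, fun t ht x i => by
        have := h.momentum t ht x i
        rw [one_mul] at this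
        exact this⟩
    have s2 : IsSolF ν T (fun t => casc lam B α β (u t) (u t)) (fun t x => u t (x + e)) (fun t x => p t (x + e)) := by
      refine ⟨?_, ?_, fun t ht i x => ?_, fun t ht i x => ?_, fun t ht x => ?_, fun t ht x i => ?_⟩
      · exact h.smooth_u.comp hA.contDiffOn fun z hz => ⟨hz.1, mem_univ _⟩
      · exact h.smooth_p.comp hA.contDiffOn fun z hz => ⟨hz.1, mem_univ _⟩
      · show u t (x + Pi.single i 1 + e) = u t (x + e)
        rw [add_right_comm, h.per_u t ht]
      · show p t (x + Pi.single i 1 + e) = p t (x + e)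
        rw [add_right_comm, h.per_p t ht]
      · have := h.divfree t ht (x + e)
        simp only [← hpd] at this
        exact this
      · have := h.momentum t ht (x + e) i
        rw [one_mul] at this
        have hc : casc lam B α β (u t) (u t) (x + e) i = casc lam B α β (u t) (u t) x i := by
          unfold casc
          refine tsum_congr fun n => ?_
          rw [he, psi_shift n x hj r]
        rw [hc] at this
        have hp2 : ∀ j', pd j' (pd j' fun y => u t (y + e) i) x = pd j' (pd j' fun y => u t y i) (x + e) := by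
          intro j'
          have e1 : (pd j' fun y => u t (y + e) i) = fun y => pd j' (fun y => u t y i) (y + e) :=
            funext fun y => hpd (fun y => u t y i) j' y
          rw [e1, hpd (pd j' fun y => u t y i)]
        simp only [hp2]
        unfold lap at this
        have hp1 : ∀ j', pd j' (fun y => u t (y + e) i) x = pd j' (fun y => u t y i) (x + e) :=
          fun j' => hpd (fun y => u t y i) j' x
        simp only [hp1]
        rw [hpd (p t) i x]
        exact this
    have hu := Pool.Agent.K1H11.NS.IsSolF.unique hν s2 s1 (by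
      funext x
      exact h0 j hj r x) ht
    intro x
    exact congrFun hu x
  -- vanishing derivatives in the directions `2` and `3`
  have hpdz : ∀ j : Fin 3, j ≠ 0 → ∀ t ∈ Ico 0 T, ∀ i x, pd j (fun y => u t y i) x = 0 := by
    intro j hj t ht i x
    have hd : DifferentiableAt ℝ (fun y => u t y i) x := (h.sp ht i).diff x
    have h2 : HasDerivAt (fun r : ℝ => u t (x + r • Pi.single j 1) i) (pd j (fun y => u t y i) x) 0 := by
      have := hd.hasFDerivAt.hasLineDerivAt (Pi.single j (1 : ℝ))
      exact this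
    have h3 : (fun r : ℝ => u t (x + r • Pi.single j 1) i) = fun _ => u t x i := by
      funext r
      have e1 : r • (Pi.single j (1 : ℝ) : V) = Pi.single j r := by
        rw [← Pi.single_smul]; simp
      rw [e1, hinv j hj r t ht x]
    rw [h3] at h2
    exact h2.unique (hasDerivAt_const _ _)
  -- the first component is constant in space
  have hpd0 : ∀ t ∈ Ico 0 T, ∀ j x, pd j (fun y => u t y 0) x = 0 := by
    intro t ht j x
    by_cases hj : j = 0
    · subst hj
      have := h.divfree t ht x
      rw [Fin.sum_univ_three, hpdz 1 (by decide) t ht, hpdz 2 (by decide) t ht] at this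
      linarith
    · exact hpdz j hj t ht 0 x
  have hconst : ∀ t ∈ Ico 0 T, ∀ x, u t x 0 = u t 0 0 := by
    intro t ht x
    have hf : ∀ x, fderiv ℝ (fun y => u t y 0) x = 0 := by
      intro x
      refine ContinuousLinearMap.coe_injective (LinearMap.pi_ext fun j r => ?_)
      have h2 := hpd0 t ht j x
      unfold pd at h2
      have e1 : (Pi.single j r : V) = r • Pi.single j 1 := by
        rw [← Pi.single_smul]; simp
      show fderiv ℝ (fun y => u t y 0) x (Pi.single j r) = 0
      rw [e1, map_smul, h2, smul_zero]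
    have := is_const_of_fderiv_eq_zero (𝕜 := ℝ) (f := fun y => u t y 0)
      ((h.sp ht 0).smooth.differentiable (by norm_cast)) hf x 0
    exact this
  -- and vanishes
  have hzero : ∀ t ∈ Ico 0 T, ∀ x, u t x 0 = 0 := by
    -- the mean of the first component
    have hmean : ∀ t ∈ Ico 0 T, ∫ x in cube, u t x 0 = u t 0 0 := by
      intro t ht
      simp_rw [hconst t ht]
      simp [Measure.real, H459R3.NS.volume_cube]
    have hder : ∀ t ∈ Ioo 0 T, HasDerivAt (fun s => ∫ x in cube, u s x 0) 0 t := by
      intro t ht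
      have hI : t ∈ Ico 0 T := ⟨ht.1.le, ht.2⟩
      refine (H459R3.NS.hasDerivAt_int (F := fun s x => u s x 0)
        (H459R3.NS.mono_Ioo (f := fun s x => u s x 0) (h.SF 0).smooth (by norm_cast)) ht).congr_deriv ?_
      have e1 : ∀ x, deriv (fun s => u s x 0) t = (-1) * pd 0 (p t) x := by
        intro x
        have h2 := h.momentum t ht x 0
        have e2 : lap (fun y => u t y 0) x = 0 := by
          unfold lap
          have : ∀ j, (pd j fun y => u t y 0) = fun _ => 0 := fun j => funext fun x => hpd0 t hI j x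
          simp only [this, pd_const0]
          simp
        have e3 : casc lam B α β (u t) (u t) x 0 = 0 := by
          unfold casc
          simp [psi_zero]
        have e4 : ∑ j, u t x j * pd j (fun y => u t y 0) x = 0 :=
          Finset.sum_eq_zero fun j _ => by rw [hpd0 t hI j x, mul_zero]
        rw [e2, e3, e4] at h2
        linarith
      simp_rw [e1]
      rw [integral_const_mul, H459R3.NS.integral_pd (((h.SFp).sp hI).smooth.of_le (by norm_cast))
        ((h.SFp).sp hI).per 0, mul_zero]
    have hcont : ContinuousOn (fun s => ∫ x in cube, u s x 0) (Ico 0 T) :=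
      H459R3.NS.continuousOn_int (F := fun s x => u s x 0) (h.SF 0).smooth.continuousOn
    intro t ht x
    rw [hconst t ht, ← hmean t ht]
    have hm : MonotoneOn (fun s => ∫ x in cube, u s x 0) (Icc 0 t) := by
      refine monotoneOn_of_deriv_nonneg (convex_Icc 0 t)
        (hcont.mono fun s hs => ⟨hs.1, hs.2.trans_lt ht.2⟩) ?_ ?_
      · rw [interior_Icc]
        exact fun s hs => (hder s ⟨hs.1, hs.2.trans ht.2⟩).differentiableAt.differentiableWithinAt
      · rw [interior_Icc]
        exact fun s hs => (hder s ⟨hs.1, hs.2.trans ht.2⟩).deriv.ge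
    have ha : AntitoneOn (fun s => ∫ x in cube, u s x 0) (Icc 0 t) := by
      refine antitoneOn_of_deriv_nonpos (convex_Icc 0 t)
        (hcont.mono fun s hs => ⟨hs.1, hs.2.trans_lt ht.2⟩) ?_ ?_
      · rw [interior_Icc]
        exact fun s hs => (hder s ⟨hs.1, hs.2.trans ht.2⟩).differentiableAt.differentiableWithinAt
      · rw [interior_Icc]
        exact fun s hs => (hder s ⟨hs.1, hs.2.trans ht.2⟩).deriv.le
    have e0 : (0 : ℝ) ∈ Icc 0 t := ⟨le_rfl, ht.1⟩
    have et : t ∈ Icc 0 t := ⟨ht.1, le_rfl⟩
    have h2 := le_antisymm (ha e0 et ht.1) (hm e0 et ht.1)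
    simp only at h2
    rw [h2]
    simp_rw [h1]
    simp
  intro t ht x i
  rw [Fin.sum_univ_three, hzero t ht x, hpdz 1 (by decide) t ht, hpdz 2 (by decide) t ht]
  ring

end Pool.Agent.H39.PDE
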