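import Pool.Agent.H39.PDE.Props
import Pool.Agent.H42.Mix.Threshold

/-!
# Blow-up for the Navier-Stokes equations with a small energy-conserving cascade term
-/

open MeasureTheory Set Filter Topology
open scoped ContDiff

namespace Pool.Agent.H39.PDE

open H459R3.NS (V K3 Per cube SP pd lap ee fr)
open Pool.Agent.H39.Dy (gain IsSol Rapid)
open Pool.Agent.H42.Flag (two two_fast Fast BlowsUpAt)

variable {lam : ℕ}

/-- the datum `A ψ₀ + c ψ₁` -/
noncomputable def datum (lam : ℕ) (A c : ℝ) (x : V) : V := fun i => A * psi lam 0 x i + c * psi lam 1 x i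

theorem fld_two (A c : ℝ) : fld lam (two A c) = datum lam A c := by
  funext x i
  unfold fld datum
  rw [tsum_eq_sum (s := Finset.range 2)]
  · simp [Finset.sum_range_succ, two]
  · intro n hn
    rw [Finset.mem_range, not_lt] at hn
    obtain ⟨m, rfl⟩ := Nat.exists_eq_add_of_le' hn
    simp [two]

theorem Fast.RS {x : ℕ → ℝ} (h : Fast x) : RS x := h

/-- for data in the shear class the equation loses its convection term -/
theorem Sol.lin {θ B α β ν T : ℝ} {u : ℝ → V → V} {p : ℝ → V → ℝ} (hν : 0 ≤ ν) (hlam : 2 ≤ lam) (hB : 0 < B)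
    (hθ : θ = 0 ∨ θ = 1) (h : Sol θ lam B α β ν T u p)
    (h0 : ∀ j : Fin 3, j ≠ 0 → ∀ (r : ℝ) x, u 0 (x + Pi.single j r) = u 0 x) (h1 : ∀ x, u 0 x 0 = 0) :
    ∀ t ∈ Ioo 0 T, ∀ x i, deriv (fun s => u s x i) t =
      ν * lap (fun y => u t y i) x - pd i (p t) x + casc lam B α β (u t) (u t) x i := by
  intro t ht x i
  have hm := h.momentum t ht x i
  rcases hθ with rfl | rfl
  · rw [zero_mul, add_zero] at hm
    exact hm
  · rw [h.shear hν hlam hB h0 h1 t ⟨ht.1.le, ht.2⟩ x i, mul_zero, add_zero] at hm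
    exact hm

/-- **No smooth solution beyond the blow-up time of the dyadic system.** -/
theorem no_ext {θ B α β ν T₀ T' : ℝ} (hlam : 2 ≤ lam) (hB : 0 < B) (hν : 0 ≤ ν) (hθ : θ = 0 ∨ θ = 1)
    {x : ℕ → ℝ} (hx : Fast x) (hbl : BlowsUpAt α β B ((lam : ℝ) ^ 2) (4 * Real.pi ^ 2 * ν) x T₀)
    (hT : T₀ < T') {v : ℝ → V → V} {q : ℝ → V → ℝ} (h : Sol θ lam B α β ν T' v q)
    (h0 : v 0 = fld lam x) : False := by
  obtain ⟨hT₀, X, hX, hs, hunb⟩ := hbl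
  have hlin := h.lin hν hlam hB hθ (fun j hj r y => by
    rw [h0]
    funext i
    unfold fld
    refine tsum_congr fun n => ?_
    rw [psi_shift n y hj r]) (fun y => by
    rw [h0]
    show ∑' n, x n * psi lam n y 0 = 0
    have : ∀ n, x n * psi lam n y 0 = 0 := fun n => by simp [psi]
    simp only [this, tsum_zero])
  have hdy := fun {b : ℝ} (hb : b < T') =>
    dyadic (ν := ν) (α := α) (β := β) hlam hB (fun i => h.SF i) h.SFp hlin hb
  obtain ⟨K, hK⟩ := co_rapid hlam (fun i => h.SF i) hT B hB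
  obtain ⟨n, t, ht, hlt⟩ := hunb K
  have hb : ∃ K : ℝ, ∀ n, ∀ s ∈ Icc 0 t, B ^ n * |co lam (v s) n| ≤ K :=
    ⟨K, fun n s hs' => hK n s ⟨hs'.1, hs'.2.trans ht.2.le⟩⟩
  have hi : ∀ n, co lam (v 0) n = x n := fun n => by
    rw [h0, co_fld hlam (Fast.RS hx).summable_abs]
  have := (hs t ht.1 ht.2).2.2.2 (fun n s => co lam (v s) n) (hdy (ht.2.trans hT)) hb hi n t ⟨ht.1, le_rfl⟩
  rw [← this] at hlt
  exact absurd (hK n t ⟨ht.1, ht.2.le⟩) (not_le.mpr hlt)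

/-- The coefficients are controlled by the Sobolev norm of order `5 / 2`. -/
theorem co_le_sob (hlam : 2 ≤ lam) {v : V → V} (hv : ∀ i, SP fun x => v x i) (n : ℕ) :
    ((lam : ℝ) ^ (5 / 2 : ℝ)) ^ n * |co lam v n| ≤ 2 * sob (5 / 2) v := by
  have hl : (0 : ℝ) < lam := by
    have : 0 < lam := by omega
    exact_mod_cast this
  have hpi := Real.pi_gt_three
  have h1 := sum_co_le hlam (5 / 2) hv (n + 1)
  have h2 : ((2 * Real.pi * (lam : ℝ) ^ n) ^ (5 / 2 : ℝ) * |co lam v n|) ^ 2 ≤ 2 * sob (5 / 2) v ^ 2 :=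
    (Finset.single_le_sum (f := fun n => ((2 * Real.pi * (lam : ℝ) ^ n) ^ (5 / 2 : ℝ) * |co lam v n|) ^ 2)
      (fun i _ => sq_nonneg _) (Finset.self_mem_range_succ n)).trans h1
  have h3 : ((lam : ℝ) ^ (5 / 2 : ℝ)) ^ n ≤ (2 * Real.pi * (lam : ℝ) ^ n) ^ (5 / 2 : ℝ) := by
    rw [Real.rpow_pow_comm hl.le]
    apply Real.rpow_le_rpow (by positivity) _ (by norm_num)
    have : 0 < (lam : ℝ) ^ n := by positivity
    nlinarith
  have h4 : 0 ≤ sob (5 / 2) v := Real.sqrt_nonneg _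
  have h5 : (2 * Real.pi * (lam : ℝ) ^ n) ^ (5 / 2 : ℝ) * |co lam v n| ≤ 2 * sob (5 / 2) v := by
    apply le_of_sq_le_sq _ (by positivity)
    nlinarith [sq_nonneg (sob (5 / 2) v)]
  exact (mul_le_mul_of_nonneg_right h3 (abs_nonneg _)).trans h5

/-- A smooth solution with datum `u₀` exists on `[0, T₀)`, its Sobolev norm of order `5 / 2` is unbounded, and
there is no smooth solution with this datum on any longer time interval. -/
def BlowsUp (θ : ℝ) (lam : ℕ) (B α β ν T₀ : ℝ) (u₀ : V → V) : Prop :=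
  0 < T₀ ∧ (∃ u : ℝ → V → V, Sol θ lam B α β ν T₀ u (fun _ _ => 0) ∧ u 0 = u₀ ∧
    ∀ K : ℝ, ∃ t ∈ Ico 0 T₀, K < sob (5 / 2) (u t)) ∧
  ∀ T' : ℝ, T₀ < T' → ¬ ∃ (v : ℝ → V → V) (q : ℝ → V → ℝ), Sol θ lam B α β ν T' v q ∧ v 0 = u₀

theorem blowsUp {θ α β ν T₀ : ℝ} (hlam : 2 ≤ lam) (hν : 0 ≤ ν) (hθ : θ = 0 ∨ θ = 1)
    {x : ℕ → ℝ} (hx : Fast x)
    (hbl : BlowsUpAt α β ((lam : ℝ) ^ (5 / 2 : ℝ)) ((lam : ℝ) ^ 2) (4 * Real.pi ^ 2 * ν) x T₀) :
    BlowsUp θ lam ((lam : ℝ) ^ (5 / 2 : ℝ)) α β ν T₀ (fld lam x) := by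
  have hl : (0 : ℝ) < lam := by
    have : 0 < lam := by omega
    exact_mod_cast this
  have hB : (0 : ℝ) < (lam : ℝ) ^ (5 / 2 : ℝ) := Real.rpow_pos_of_pos hl _
  refine ⟨hbl.1, ?_, fun T' hT' ⟨v, q, hv, h0⟩ => no_ext hlam hB hν hθ hx hbl hT' hv h0⟩
  obtain ⟨hT₀, X, hX, hs, hunb⟩ := hbl
  have hup := up hlam hB (fun T h0 h1 => ⟨(hs T h0 h1).1, (hs T h0 h1).2.1⟩) θ
  refine ⟨_, hup, ?_, fun K => ?_⟩
  · show fld lam (fun n => X n 0) = fld lam x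
    rw [show (fun n => X n 0) = x from funext hX]
  · obtain ⟨n, t, ht, hlt⟩ := hunb (2 * K)
    refine ⟨t, ht, ?_⟩
    have h1 := co_le_sob hlam (fun i => hup.sp ht i) n
    have hrs : RS fun n => X n t := by
      intro s hs'
      obtain ⟨C, hC⟩ := (hs t ht.1 ht.2).2.1 s hs'
      exact ⟨C, fun n => hC n t ⟨ht.1, le_rfl⟩⟩
    rw [co_fld hlam hrs.summable_abs] at h1
    linarith

end Pool.Agent.H39.PDE
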