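import Pool.Graph.R_pool_sql_team_seeded_efc1946e.K1H11.NS5.Uniq

/-!
# The modes of the cascade and their coefficients
-/

open MeasureTheory Set Filter Topology
open scoped ContDiff

namespace Pool.Agent.H39.PDE

open H459R3.NS (V K3 Per cube SP pd lap ee)

/-- The modes: `ψ_n(x) = (0, cos (2 π lam ^ n x₁), sin (2 π lam ^ n x₁))`. -/
noncomputable def psi (lam n : ℕ) (x : V) : V :=
  ![0, Real.cos (2 * Real.pi * lam ^ n * x 0), Real.sin (2 * Real.pi * lam ^ n * x 0)]

/-- The coefficients `⟨v, ψ_n⟩ = ∫ v · ψ_n` (integral over the period cell). -/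
noncomputable def co (lam : ℕ) (v : V → V) (n : ℕ) : ℝ := ∫ x in cube, ∑ i, v x i * psi lam n x i

section basics

variable {lam : ℕ}

theorem psi_zero (n : ℕ) (x : V) : psi lam n x 0 = 0 := rfl

theorem psi_one (n : ℕ) (x : V) : psi lam n x 1 = Real.cos (2 * Real.pi * lam ^ n * x 0) := rfl

theorem psi_two (n : ℕ) (x : V) : psi lam n x 2 = Real.sin (2 * Real.pi * lam ^ n * x 0) := rfl

theorem abs_psi_le (n : ℕ) (x : V) (i : Fin 3) : |psi lam n x i| ≤ 1 := by
  fin_cases i
  · simp [psi_zero]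
  · exact Real.abs_cos_le_one _
  · exact Real.abs_sin_le_one _

theorem pd_const0 (j : Fin 3) : pd j (fun _ : V => (0 : ℝ)) = fun _ => 0 := by
  funext x
  simp [pd]

/-- functions of the first coordinate -/
theorem pd_first {g : ℝ → ℝ} (hg : Differentiable ℝ g) (j : Fin 3) (x : V) :
    pd j (fun y : V => g (y 0)) x = if j = 0 then deriv g (x 0) else 0 := by
  unfold pd
  have h1 : HasFDerivAt (fun y : V => y 0) (ContinuousLinearMap.proj (R := ℝ) (φ := fun _ : Fin 3 => ℝ) 0) x :=
    (ContinuousLinearMap.proj (R := ℝ) (φ := fun _ : Fin 3 => ℝ) 0).hasFDerivAt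
  have h2 : HasFDerivAt (fun y : V => g (y 0)) _ x := (hg (x 0)).hasDerivAt.comp_hasFDerivAt x h1
  rw [h2.fderiv]
  by_cases hj : j = 0
  · subst hj
    simp
  · simp [hj, Ne.symm hj]

theorem sp_first {g : ℝ → ℝ} (hg : ContDiff ℝ ∞ g) (hp : ∀ y, g (y + 1) = g y) :
    SP (fun y : V => g (y 0)) := by
  refine ⟨hg.comp (contDiff_apply ℝ ℝ 0), fun i x => ?_⟩
  show g ((x + Pi.single i 1 : V) 0) = g (x 0)
  by_cases hi : i = 0
  · subst hi
    simp [hp]
  · simp [Ne.symm hi]

theorem cos_per (n : ℕ) (y : ℝ) :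
    Real.cos (2 * Real.pi * lam ^ n * (y + 1)) = Real.cos (2 * Real.pi * lam ^ n * y) := by
  have : 2 * Real.pi * (lam : ℝ) ^ n * (y + 1) = 2 * Real.pi * lam ^ n * y + ((lam ^ n : ℕ) : ℝ) * (2 * Real.pi) := by
    push_cast; ring
  rw [this, Real.cos_add_nat_mul_two_pi]

theorem sin_per (n : ℕ) (y : ℝ) :
    Real.sin (2 * Real.pi * lam ^ n * (y + 1)) = Real.sin (2 * Real.pi * lam ^ n * y) := by
  have : 2 * Real.pi * (lam : ℝ) ^ n * (y + 1) = 2 * Real.pi * lam ^ n * y + ((lam ^ n : ℕ) : ℝ) * (2 * Real.pi) := by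
    push_cast; ring
  rw [this, Real.sin_add_nat_mul_two_pi]

theorem sp_psi (n : ℕ) (i : Fin 3) : SP fun x => psi lam n x i := by
  fin_cases i
  · exact ⟨contDiff_const, fun _ _ => rfl⟩
  · exact sp_first (g := fun y => Real.cos (2 * Real.pi * lam ^ n * y)) (by fun_prop) (cos_per n)
  · exact sp_first (g := fun y => Real.sin (2 * Real.pi * lam ^ n * y)) (by fun_prop) (sin_per n)

theorem hasDerivAt_cos (c y : ℝ) : HasDerivAt (fun y => Real.cos (c * y)) (-c * Real.sin (c * y)) y := by
  have h := ((hasDerivAt_id' y).const_mul c).cos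
  refine h.congr_deriv ?_
  ring

theorem hasDerivAt_sin (c y : ℝ) : HasDerivAt (fun y => Real.sin (c * y)) (c * Real.cos (c * y)) y := by
  have h := ((hasDerivAt_id' y).const_mul c).sin
  refine h.congr_deriv ?_
  ring

theorem lap_psi (n : ℕ) (i : Fin 3) (x : V) :
    lap (fun y => psi lam n y i) x = -(2 * Real.pi * lam ^ n) ^ 2 * psi lam n x i := by
  unfold lap
  set c : ℝ := 2 * Real.pi * lam ^ n with hc
  have key : ∀ g g' : ℝ → ℝ, (∀ y, HasDerivAt g (g' y) y) → (∀ y, HasDerivAt g' (-c ^ 2 * g y) y) →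
      ∑ j, pd j (pd j fun y : V => g (y 0)) x = -c ^ 2 * g (x 0) := by
    intro g g' h1 h2
    have hg : Differentiable ℝ g := fun y => (h1 y).differentiableAt
    have hg' : Differentiable ℝ g' := fun y => (h2 y).differentiableAt
    have e0 : (pd 0 fun y : V => g (y 0)) = fun y => g' (y 0) := by
      funext y
      rw [pd_first hg, if_pos rfl, (h1 _).deriv]
    have e1 : ∀ j : Fin 3, j ≠ 0 → (pd j fun y : V => g (y 0)) = fun _ => 0 := by
      intro j hj
      funext y
      rw [pd_first hg, if_neg hj]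
    rw [Fin.sum_univ_three, e0, e1 1 (by decide), e1 2 (by decide), pd_first hg', if_pos rfl,
      (h2 _).deriv]
    simp [pd]
  fin_cases i
  · show ∑ j, pd j (pd j fun _ : V => (0 : ℝ)) x = -c ^ 2 * 0
    simp only [pd_const0]
    simp
  · refine key (fun y => Real.cos (c * y)) (fun y => -c * Real.sin (c * y)) (hasDerivAt_cos c)
      fun y => ?_
    refine ((hasDerivAt_sin c y).const_mul (-c)).congr_deriv ?_
    ring
  · refine key (fun y => Real.sin (c * y)) (fun y => c * Real.cos (c * y)) (hasDerivAt_sin c)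
      fun y => ?_
    refine ((hasDerivAt_cos c y).const_mul c).congr_deriv ?_
    ring

theorem div_psi (n : ℕ) (x : V) : ∑ i, pd i (fun y => psi lam n y i) x = 0 := by
  rw [Fin.sum_univ_three]
  have e1 : pd 1 (fun y => psi lam n y 1) x = 0 := by
    have := pd_first (g := fun y => Real.cos (2 * Real.pi * lam ^ n * y)) (by fun_prop) 1 x
    rw [if_neg (by decide)] at this
    exact this
  have e2 : pd 2 (fun y => psi lam n y 2) x = 0 := by
    have := pd_first (g := fun y => Real.sin (2 * Real.pi * lam ^ n * y)) (by fun_prop) 2 x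
    rw [if_neg (by decide)] at this
    exact this
  rw [e1, e2]
  show pd 0 (fun _ : V => (0 : ℝ)) x + 0 + 0 = 0
  rw [pd_const0]
  simp

/-- translations in the second and third direction -/
theorem psi_shift (n : ℕ) (x : V) {j : Fin 3} (hj : j ≠ 0) (h : ℝ) :
    psi lam n (x + Pi.single j h) = psi lam n x := by
  have e : (x + Pi.single j h : V) 0 = x 0 := by
    simp [Ne.symm hj]
  unfold psi
  rw [e]

theorem integral_cos (m : ℤ) : ∫ x in cube, Real.cos (2 * Real.pi * m * x 0) = if m = 0 then 1 else 0 := by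
  have h := H459R3.NS.integral_ee (Pi.single 0 m : K3)
  have e : ∀ x : V, (ee (Pi.single 0 m : K3) x).re = Real.cos (2 * Real.pi * m * x 0) := by
    intro x
    have h1 : H459R3.NS.ph (Pi.single 0 m : K3) x = m * x 0 := by
      simp [H459R3.NS.ph, Fin.sum_univ_three]
    rw [ee, h1]
    have h2 : 2 * (Real.pi : ℂ) * Complex.I * ((m * x 0 : ℝ) : ℂ) =
        ((2 * Real.pi * m * x 0 : ℝ) : ℂ) * Complex.I := by push_cast; ring
    rw [h2, Complex.exp_ofReal_mul_I_re]
  have hint : IntegrableOn (ee (Pi.single 0 m : K3)) cube :=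
    H459R3.NS.integrableOn_cube (H459R3.NS.ee_continuous _)
  have h3 := congrArg Complex.re h
  rw [← RCLike.re_eq_complex_re, ← integral_re hint] at h3
  simp only [RCLike.re_eq_complex_re] at h3
  simp_rw [e] at h3
  rw [h3]
  by_cases hm : m = 0
  · subst hm; simp
  · have : (Pi.single 0 m : K3) ≠ 0 := by
      intro h4
      have := congrFun h4 0
      simp at this
      exact hm this
    rw [if_neg hm, if_neg this]
    simp

/-- orthonormality -/
theorem orth (hlam : 2 ≤ lam) (n m : ℕ) :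
    ∫ x in cube, ∑ i, psi lam n x i * psi lam m x i = if n = m then 1 else 0 := by
  have e : ∀ x : V, ∑ i, psi lam n x i * psi lam m x i =
      Real.cos (2 * Real.pi * (((lam : ℤ) ^ n - (lam : ℤ) ^ m : ℤ) : ℝ) * x 0) := by
    intro x
    rw [Fin.sum_univ_three, psi_zero, psi_one, psi_two, psi_zero, psi_one, psi_two]
    have : 2 * Real.pi * (((lam : ℤ) ^ n - (lam : ℤ) ^ m : ℤ) : ℝ) * x 0 =
        2 * Real.pi * lam ^ n * x 0 - 2 * Real.pi * lam ^ m * x 0 := by push_cast; ring
    rw [this, Real.cos_sub]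
    ring
  simp_rw [e]
  rw [integral_cos]
  by_cases h : n = m
  · subst h; simp
  · rw [if_neg h, if_neg]
    intro h2
    apply h
    have h3 : (lam : ℤ) ^ n = (lam : ℤ) ^ m := by linarith
    have h4 : lam ^ n = lam ^ m := by exact_mod_cast h3
    exact Nat.pow_right_injective hlam h4

end basics

section coefficients

variable {lam : ℕ}

theorem co_add {v w : V → V} (hv : ∀ i, SP fun x => v x i) (hw : ∀ i, SP fun x => w x i) (n : ℕ) :
    co lam (fun x i => v x i + w x i) n = co lam v n + co lam w n := by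
  unfold co
  rw [← integral_add]
  · congr 1
    funext x
    rw [← Finset.sum_add_distrib]
    exact Finset.sum_congr rfl fun i _ => by ring
  · exact (SP.sum (s := Finset.univ) fun i _ => (hv i).mul (sp_psi n i)).int
  · exact (SP.sum (s := Finset.univ) fun i _ => (hw i).mul (sp_psi n i)).int

theorem co_smul (v : V → V) (a : ℝ) (n : ℕ) :
    co lam (fun x i => a * v x i) n = a * co lam v n := by
  unfold co
  rw [← integral_const_mul]
  congr 1
  funext x
  rw [Finset.mul_sum]
  exact Finset.sum_congr rfl fun i _ => by ring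

/-- integration by parts -/
theorem co_lap {v : V → V} (hv : ∀ i, SP fun x => v x i) (n : ℕ) :
    co lam (fun x i => lap (fun y => v y i) x) n = -(2 * Real.pi * lam ^ n) ^ 2 * co lam v n := by
  unfold co
  rw [integral_finsetSum _ fun i _ => ((hv i).lap.mul (sp_psi n i)).int,
    integral_finsetSum _ fun i _ => ((hv i).mul (sp_psi n i)).int, Finset.mul_sum]
  refine Finset.sum_congr rfl fun i _ => ?_
  rw [H459R3.NS.int_lap_mul (hv i) (sp_psi n i), ← integral_const_mul]
  have h2 := H459R3.NS.int_lap_mul (sp_psi (lam := lam) n i) (hv i)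
  simp_rw [lap_psi] at h2
  have h3 : ∫ x in cube, -(2 * Real.pi * (lam : ℝ) ^ n) ^ 2 * (v x i * psi lam n x i) =
      ∫ x in cube, -(2 * Real.pi * (lam : ℝ) ^ n) ^ 2 * psi lam n x i * v x i := by
    congr 1; funext x; ring
  rw [h3, h2]
  congr 1
  refine Finset.sum_congr rfl fun j _ => ?_
  congr 1; funext x; ring

theorem abs_co_le {v : V → V} {M : ℝ} (hM : ∀ x ∈ cube, ∀ i, |v x i| ≤ M)
    (n : ℕ) : |co lam v n| ≤ 3 * M := by
  unfold co
  have := H459R3.NS.cube_finite
  have h1 : ∀ x ∈ cube, ‖∑ i, v x i * psi lam n x i‖ ≤ 3 * M := by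
    intro x hx
    refine (norm_sum_le _ _).trans ?_
    have h2 : ∀ i ∈ (Finset.univ : Finset (Fin 3)), ‖v x i * psi lam n x i‖ ≤ M := by
      intro i _
      rw [Real.norm_eq_abs, abs_mul]
      have h3 := hM x hx i
      have h4 := abs_psi_le (lam := lam) n x i
      calc |v x i| * |psi lam n x i| ≤ M * 1 := mul_le_mul h3 h4 (abs_nonneg _) ((abs_nonneg _).trans h3)
        _ = M := mul_one M
    refine (Finset.sum_le_sum h2).trans ?_
    simp
  have h5 := norm_setIntegral_le_of_norm_le_const (μ := volume) (s := cube)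
    (by rw [H459R3.NS.volume_cube]; simp) h1
  rw [Real.norm_eq_abs] at h5
  simpa [Measure.real, H459R3.NS.volume_cube] using h5

/-- decay of the coefficients -/
theorem abs_co_le_of_lap (hlam : 1 ≤ lam) {v : V → V} (hv : ∀ i, SP fun x => v x i) {M : ℝ}
    (hM : ∀ x ∈ cube, ∀ i, |lap (fun y => v y i) x| ≤ M) (n : ℕ) :
    |co lam v n| ≤ M * (((lam : ℝ) ^ 2)⁻¹) ^ n := by
  have h1 := abs_co_le (lam := lam) (v := fun x i => lap (fun y => v y i) x)
    hM n
  rw [co_lap hv, abs_mul, abs_neg, abs_of_nonneg (by positivity)] at h1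
  have hl : (0 : ℝ) < lam := by exact_mod_cast hlam
  have h2 : 0 ≤ M := (abs_nonneg _).trans (hM 0 ⟨le_rfl, fun i => zero_le_one⟩ 0)
  have hpi : 3 ≤ Real.pi := Real.pi_gt_three.le
  have h4 : (0 : ℝ) < ((lam : ℝ) ^ 2) ^ n := by positivity
  rw [inv_pow, ← div_eq_mul_inv, le_div_iff₀ h4]
  have h5 : (2 * Real.pi * (lam : ℝ) ^ n) ^ 2 = (2 * Real.pi) ^ 2 * ((lam : ℝ) ^ 2) ^ n := by
    rw [mul_pow, ← pow_mul, ← pow_mul, mul_comm n 2]
  rw [h5] at h1
  have h6 : (3 : ℝ) ≤ (2 * Real.pi) ^ 2 := by nlinarith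
  have h7 : 0 ≤ |co lam v n| * ((lam : ℝ) ^ 2) ^ n := by positivity
  nlinarith

end coefficients

end Pool.Agent.H39.PDE
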