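import Pool.Agent.H39.PDE.Down
import Pool.Graph.R_pool_sql_team_seeded_efc1946e.K1H11.NS3.LocF

/-!
# Smoothness of the fields of dyadic solutions
-/

open MeasureTheory Set Filter Topology
open scoped ContDiff

namespace Pool.Agent.H39.PDE

open H459R3.NS (V K3 Per cube SP pd lap)
open Pool.Agent.H39.Dy (gain IsSol Rapid)
open Pool.Agent.K1H11.NS (SFam RD TT TTl TB GS ex pw cut_TT)

/-- rapidly decreasing, uniformly in time -/
def RDD (a : ℕ → ℝ → ℝ) : Prop := ∀ s : ℝ, 0 < s → ∃ C : ℝ, ∀ n t, s ^ n * |a n t| ≤ C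

/-- `k` times differentiable dyadic families on `(0, T)` -/
def TDl (T : ℝ) : ℕ → (ℕ → ℝ → ℝ) → Prop
  | 0, a => RDD a ∧ ∀ n, Continuous (a n)
  | k + 1, a => RDD a ∧ (∀ n, Continuous (a n)) ∧
      ∃ a' : ℕ → ℝ → ℝ, (∀ n t, 0 < t → t < T → HasDerivAt (a n) (a' n t) t) ∧ TDl T k a'

theorem RDD.nonneg {a : ℕ → ℝ → ℝ} (ha : RDD a) {s : ℝ} (hs : 0 < s) :
    ∃ C : ℝ, 0 ≤ C ∧ ∀ n t, s ^ n * |a n t| ≤ C := by
  obtain ⟨C, hC⟩ := ha s hs
  exact ⟨C, (mul_nonneg (by positivity) (abs_nonneg _)).trans (hC 0 0), hC⟩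

theorem RDD.add {a b : ℕ → ℝ → ℝ} (ha : RDD a) (hb : RDD b) : RDD fun n t => a n t + b n t := by
  intro s hs
  obtain ⟨C, hC⟩ := ha s hs
  obtain ⟨C', hC'⟩ := hb s hs
  refine ⟨C + C', fun n t => ?_⟩
  have h0 : 0 ≤ s ^ n := by positivity
  have := mul_le_mul_of_nonneg_left (abs_add_le (a n t) (b n t)) h0
  have := hC n t
  have := hC' n t
  linarith

theorem RDD.mul {a b : ℕ → ℝ → ℝ} (ha : RDD a) (hb : RDD b) : RDD fun n t => a n t * b n t := by
  intro s hs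
  obtain ⟨C, hC0, hC⟩ := ha.nonneg hs
  obtain ⟨C', hC'⟩ := hb 1 one_pos
  refine ⟨C * C', fun n t => ?_⟩
  have h2 : |b n t| ≤ C' := by simpa using hC' n t
  rw [abs_mul, ← mul_assoc]
  exact mul_le_mul (hC n t) h2 (abs_nonneg _) hC0

theorem RDD.fac {a : ℕ → ℝ → ℝ} (ha : RDD a) {p : ℕ → ℝ} {C r : ℝ} (hr : 0 < r) (hp : ∀ n, |p n| ≤ C * r ^ n) :
    RDD fun n t => p n * a n t := by
  intro s hs
  obtain ⟨C', hC0', hC'⟩ := ha.nonneg (s := s * r) (by positivity)
  have hC : 0 ≤ C := by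
    have := (abs_nonneg _).trans (hp 0)
    simpa using this
  refine ⟨C * C', fun n t => ?_⟩
  rw [abs_mul]
  calc s ^ n * (|p n| * |a n t|) ≤ s ^ n * ((C * r ^ n) * |a n t|) := by
        have := hp n
        gcongr
    _ = C * ((s * r) ^ n * |a n t|) := by rw [mul_pow]; ring
    _ ≤ C * C' := mul_le_mul_of_nonneg_left (hC' n t) hC

theorem RDD.succ {a : ℕ → ℝ → ℝ} (ha : RDD a) : RDD fun n t => a (n + 1) t := by
  intro s hs
  obtain ⟨C, hC⟩ := ha s hs
  refine ⟨C / s, fun n t => ?_⟩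
  rw [le_div_iff₀ hs]
  have := hC (n + 1) t
  rw [pow_succ] at this
  linarith

/-- shift to the right -/
def pre (a : ℕ → ℝ → ℝ) : ℕ → ℝ → ℝ
  | 0, _ => 0
  | n + 1, t => a n t

theorem RDD.pre {a : ℕ → ℝ → ℝ} (ha : RDD a) : RDD (pre a) := by
  intro s hs
  obtain ⟨C, hC0, hC⟩ := ha.nonneg hs
  refine ⟨s * C, fun n t => ?_⟩
  cases n with
  | zero => simp [PDE.pre]; positivity
  | succ n =>
    have := mul_le_mul_of_nonneg_left (hC n t) hs.le
    simp only [PDE.pre]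
    rw [pow_succ]
    linarith

section TDl

variable {T : ℝ}

theorem TDl.rd : ∀ {k : ℕ} {a : ℕ → ℝ → ℝ}, TDl T k a → RDD a
  | 0, _, h => h.1
  | _ + 1, _, h => h.1

theorem TDl.ct : ∀ {k : ℕ} {a : ℕ → ℝ → ℝ}, TDl T k a → ∀ n, Continuous (a n)
  | 0, _, h => h.2
  | _ + 1, _, h => h.2.1

theorem TDl.pred : ∀ {k : ℕ} {a : ℕ → ℝ → ℝ}, TDl T (k + 1) a → TDl T k a := by
  intro k
  induction k with
  | zero => intro a h; exact ⟨h.1, h.2.1⟩
  | succ k ih =>
    intro a h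
    obtain ⟨h1, h2, a', h3, h4⟩ := h
    exact ⟨h1, h2, a', h3, ih h4⟩

theorem TDl.add {k : ℕ} : ∀ {a b : ℕ → ℝ → ℝ}, TDl T k a → TDl T k b → TDl T k (fun n t => a n t + b n t) := by
  induction k with
  | zero => intro a b ha hb; exact ⟨ha.1.add hb.1, fun n => (ha.2 n).add (hb.2 n)⟩
  | succ k ih =>
    intro a b ha hb
    obtain ⟨h1, h2, a', h3, h4⟩ := ha
    obtain ⟨g1, g2, b', g3, g4⟩ := hb
    exact ⟨h1.add g1, fun n => (h2 n).add (g2 n), _,
      fun n t ht hT => (h3 n t ht hT).fun_add (g3 n t ht hT), ih h4 g4⟩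

theorem TDl.fac {k : ℕ} {p : ℕ → ℝ} {C r : ℝ} (hr : 0 < r) (hp : ∀ n, |p n| ≤ C * r ^ n) :
    ∀ {a : ℕ → ℝ → ℝ}, TDl T k a → TDl T k (fun n t => p n * a n t) := by
  induction k with
  | zero => intro a ha; exact ⟨ha.1.fac hr hp, fun n => continuous_const.mul (ha.2 n)⟩
  | succ k ih =>
    intro a ha
    obtain ⟨h1, h2, a', h3, h4⟩ := ha
    exact ⟨h1.fac hr hp, fun n => continuous_const.mul (h2 n), _,
      fun n t ht hT => (h3 n t ht hT).const_mul (p n), ih h4⟩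

theorem TDl.mul {k : ℕ} : ∀ {a b : ℕ → ℝ → ℝ}, TDl T k a → TDl T k b → TDl T k (fun n t => a n t * b n t) := by
  induction k with
  | zero => intro a b ha hb; exact ⟨ha.1.mul hb.1, fun n => (ha.2 n).mul (hb.2 n)⟩
  | succ k ih =>
    intro a b ha hb
    have ha0 := ha.pred
    have hb0 := hb.pred
    obtain ⟨h1, h2, a', h3, h4⟩ := ha
    obtain ⟨g1, g2, b', g3, g4⟩ := hb
    exact ⟨h1.mul g1, fun n => (h2 n).mul (g2 n), _,
      fun n t ht hT => (h3 n t ht hT).fun_mul (g3 n t ht hT), (ih h4 hb0).add (ih ha0 g4)⟩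

theorem TDl.succ {k : ℕ} : ∀ {a : ℕ → ℝ → ℝ}, TDl T k a → TDl T k (fun n t => a (n + 1) t) := by
  induction k with
  | zero => intro a ha; exact ⟨ha.1.succ, fun n => ha.2 _⟩
  | succ k ih =>
    intro a ha
    obtain ⟨h1, h2, a', h3, h4⟩ := ha
    exact ⟨h1.succ, fun n => h2 _, _, fun n t ht hT => h3 (n + 1) t ht hT, ih h4⟩

theorem TDl.pre {k : ℕ} : ∀ {a : ℕ → ℝ → ℝ}, TDl T k a → TDl T k (pre a) := by
  have hc : ∀ {a : ℕ → ℝ → ℝ}, (∀ n, Continuous (a n)) → ∀ n, Continuous (PDE.pre a n) := by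
    intro a ha n
    cases n with
    | zero => exact continuous_const
    | succ n => exact ha n
  induction k with
  | zero => intro a ha; exact ⟨ha.1.pre, hc ha.2⟩
  | succ k ih =>
    intro a ha
    obtain ⟨h1, h2, a', h3, h4⟩ := ha
    refine ⟨h1.pre, hc h2, PDE.pre a', fun n t ht hT => ?_, ih h4⟩
    cases n with
    | zero => exact hasDerivAt_const _ _
    | succ n => exact h3 n t ht hT

/-- the right hand side of the dyadic system, as a family -/
theorem TDl.rhs {k : ℕ} {α β B D ν : ℝ} (hB : 0 < B) (hD : 0 < D) {X : ℕ → ℝ → ℝ} (h : TDl T k X) :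
    TDl T k (fun n t => gain α β B (fun k => X k t) n - ν * D ^ n * X n t -
      B ^ n * X (n + 1) t * (α * X n t + β * X (n + 1) t)) := by
  have c : ∀ a : ℝ, ∀ n : ℕ, |(fun _ : ℕ => a) n| ≤ |a| * (1 : ℝ) ^ n := fun a n => by simp
  have hBn : ∀ n : ℕ, |B ^ n| ≤ 1 * B ^ n := fun n => by rw [abs_of_pos (by positivity), one_mul]
  have hDn : ∀ n : ℕ, |(-ν) * D ^ n| ≤ |ν| * D ^ n := fun n => by
    rw [abs_mul, abs_neg, abs_of_pos (by positivity : 0 < D ^ n)]
  have h1 : TDl T k (fun n t => B ^ n * (X n t * (α * X n t + β * X (n + 1) t))) :=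
    TDl.fac hB hBn (h.mul ((TDl.fac one_pos (c α) h).add (TDl.fac one_pos (c β) h.succ)))
  have h2 : TDl T k (fun n t => (-ν) * D ^ n * X n t) := TDl.fac hD hDn h
  have h3 : TDl T k (fun n t => (-1) * (B ^ n * (X (n + 1) t * (α * X n t + β * X (n + 1) t)))) :=
    TDl.fac one_pos (c (-1)) (TDl.fac hB hBn (h.succ.mul ((TDl.fac one_pos (c α) h).add
      (TDl.fac one_pos (c β) h.succ))))
  have h4 := (h1.pre.add h2).add h3
  have e : (fun n t => gain α β B (fun k => X k t) n - ν * D ^ n * X n t -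
      B ^ n * X (n + 1) t * (α * X n t + β * X (n + 1) t)) = fun n t =>
      (PDE.pre (fun n t => B ^ n * (X n t * (α * X n t + β * X (n + 1) t))) n t + (-ν) * D ^ n * X n t) +
      (-1) * (B ^ n * (X (n + 1) t * (α * X n t + β * X (n + 1) t))) := by
    funext n t
    cases n with
    | zero => simp only [gain, PDE.pre]; ring
    | succ n => simp only [gain, PDE.pre]; ring
  rw [e]
  exact h4

/-- the solution, stopped at the end points of `[0, T]` -/
noncomputable def clamp (hT : 0 ≤ T) (X : ℕ → ℝ → ℝ) : ℕ → ℝ → ℝ := fun n t => X n (projIcc 0 T hT t)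

theorem clamp_eq (hT : 0 ≤ T) (X : ℕ → ℝ → ℝ) (n : ℕ) {t : ℝ} (ht : t ∈ Icc 0 T) : clamp hT X n t = X n t := by
  unfold clamp
  rw [projIcc_of_mem hT ht]

theorem TDl_clamp {α β B D ν : ℝ} (hB : 0 < B) (hD : 0 < D) (hT : 0 ≤ T) {X : ℕ → ℝ → ℝ}
    (h : IsSol α β B D ν T X) (hr : Rapid T X) (k : ℕ) : TDl T k (clamp hT X) := by
  have hrd : RDD (clamp hT X) := by
    intro s hs
    obtain ⟨C, hC⟩ := hr s hs
    exact ⟨C, fun n t => hC n _ (projIcc 0 T hT t).2⟩
  have hct : ∀ n, Continuous (clamp hT X n) := fun n =>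
    ((h.continuousOn n).domRestrict).comp continuous_projIcc
  induction k with
  | zero => exact ⟨hrd, hct⟩
  | succ k ih =>
    refine ⟨hrd, hct, _, fun n t ht htT => ?_, ih.rhs (α := α) (β := β) (ν := ν) hB hD⟩
    have hI : t ∈ Icc 0 T := ⟨ht.le, htT.le⟩
    have h1 := (h n t hI).hasDerivAt (Icc_mem_nhds ht htT)
    have e : clamp hT X n =ᶠ[𝓝 t] X n := by
      filter_upwards [Icc_mem_nhds ht htT] with s hs
      exact clamp_eq hT X n hs
    refine (h1.congr_of_eventuallyEq e).congr_deriv ?_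
    simp only [clamp_eq hT X _ hI]

end TDl

/-! ### the Fourier families -/

theorem kap_inj {lam : ℕ} (hlam : 2 ≤ lam) : Function.Injective (kap lam) := by
  intro n m h
  have h1 := congrFun h 0
  simp only [kap, Pi.single_eq_same] at h1
  have h2 : lam ^ n = lam ^ m := by exact_mod_cast h1
  exact Nat.pow_right_injective hlam h2

/-- the Fourier family `∑ a_n(t) exp (2 π i lam ^ n x₁)` -/
noncomputable def EF (lam : ℕ) (a : ℕ → ℝ → ℝ) : SFam := fun k t =>
  Function.extend (kap lam) (fun n => ((a n t : ℝ) : ℂ)) (fun _ => 0) k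

theorem EF_kap {lam : ℕ} (hlam : 2 ≤ lam) (a : ℕ → ℝ → ℝ) (n : ℕ) (t : ℝ) :
    EF lam a (kap lam n) t = ((a n t : ℝ) : ℂ) := (kap_inj hlam).extend_apply _ _ n

theorem EF_not {lam : ℕ} (a : ℕ → ℝ → ℝ) {k : K3} (hk : k ∉ range (kap lam)) (t : ℝ) : EF lam a k t = 0 := by
  unfold EF
  rw [Function.extend_apply']
  rintro ⟨n, hn⟩
  exact hk ⟨n, hn⟩

theorem pw_kap {lam : ℕ} (n : ℕ) : pw (kap lam n) = 1 + (lam : ℝ) ^ n := by
  unfold pw Pool.Agent.K1H11.NS.l1
  rw [Fin.sum_univ_three]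
  simp [kap]

theorem EF_RD {lam : ℕ} (hlam : 2 ≤ lam) {a : ℕ → ℝ → ℝ} (ha : RDD a) : RD (EF lam a) := by
  intro m
  have hl : (0 : ℝ) < lam := by
    have : 0 < lam := by omega
    exact_mod_cast this
  obtain ⟨C, hC0, hC⟩ := ha.nonneg (s := 2 * (lam : ℝ) ^ m) (by positivity)
  refine ⟨Function.extend (kap lam) (fun n => 2 ^ m * C * (1 / 2) ^ n) (fun _ => 0), ?_, fun k t => ?_⟩
  · rw [← (kap_inj hlam).summable_iff]
    · have e : Function.extend (kap lam) (fun n => 2 ^ m * C * (1 / 2 : ℝ) ^ n) (fun _ => 0) ∘ kap lam =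
          fun n => 2 ^ m * C * (1 / 2 : ℝ) ^ n :=
        funext fun n => (kap_inj hlam).extend_apply _ _ n
      rw [e]
      exact (summable_geometric_of_lt_one (by norm_num) (by norm_num)).mul_left _
    · intro k hk
      rw [Function.extend_apply']
      rintro ⟨n, hn⟩
      exact hk ⟨n, hn⟩
  · by_cases hk : k ∈ range (kap lam)
    · obtain ⟨n, rfl⟩ := hk
      rw [EF_kap hlam, (kap_inj hlam).extend_apply, pw_kap, Complex.norm_real, Real.norm_eq_abs]
      have h1 : (1 : ℝ) ≤ (lam : ℝ) ^ n := one_le_pow₀ (by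
        have : 1 ≤ lam := by omega
        exact_mod_cast this)
      have h2 : (1 + (lam : ℝ) ^ n) ^ m ≤ 2 ^ m * ((lam : ℝ) ^ m) ^ n := by
        calc (1 + (lam : ℝ) ^ n) ^ m ≤ (2 * (lam : ℝ) ^ n) ^ m := by
              apply pow_le_pow_left₀ (by positivity)
              linarith
          _ = _ := by rw [mul_pow, ← pow_mul, ← pow_mul, mul_comm n m]
      have h3 := hC n t
      rw [mul_pow] at h3
      have h4 : (1 / 2 : ℝ) ^ n * (2 ^ n) = 1 := by rw [← mul_pow]; norm_num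
      calc (1 + (lam : ℝ) ^ n) ^ m * |a n t| ≤ 2 ^ m * ((lam : ℝ) ^ m) ^ n * |a n t| := by gcongr
        _ = 2 ^ m * (((1 / 2 : ℝ) ^ n * 2 ^ n) * (((lam : ℝ) ^ m) ^ n * |a n t|)) := by rw [h4]; ring
        _ = 2 ^ m * ((1 / 2 : ℝ) ^ n * (2 ^ n * ((lam : ℝ) ^ m) ^ n * |a n t|)) := by ring
        _ ≤ 2 ^ m * ((1 / 2 : ℝ) ^ n * C) := by gcongr
        _ = _ := by ring
    · rw [EF_not a hk, norm_zero, mul_zero, Function.extend_apply']
      rintro ⟨n, hn⟩
      exact hk ⟨n, hn⟩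

theorem EF_cont {lam : ℕ} (hlam : 2 ≤ lam) {a : ℕ → ℝ → ℝ} (ha : ∀ n, Continuous (a n)) (k : K3) :
    Continuous (EF lam a k) := by
  by_cases hk : k ∈ range (kap lam)
  · obtain ⟨n, rfl⟩ := hk
    have : EF lam a (kap lam n) = fun t => ((a n t : ℝ) : ℂ) := funext fun t => EF_kap hlam a n t
    rw [this]
    exact Complex.continuous_ofReal.comp (ha n)
  · have : EF lam a k = fun _ => 0 := funext fun t => EF_not a hk t
    rw [this]
    exact continuous_const

theorem EF_TTl {lam : ℕ} (hlam : 2 ≤ lam) {T : ℝ} {k : ℕ} : ∀ {a : ℕ → ℝ → ℝ}, TDl T k a → TTl T k (EF lam a) := by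
  induction k with
  | zero => intro a ha; exact ⟨EF_RD hlam ha.1, EF_cont hlam ha.2⟩
  | succ k ih =>
    intro a ha
    obtain ⟨h1, h2, a', h3, h4⟩ := ha
    refine ⟨EF_RD hlam h1, EF_cont hlam h2, EF lam a', fun k t ht hT => ?_, ih h4⟩
    by_cases hk : k ∈ range (kap lam)
    · obtain ⟨n, rfl⟩ := hk
      have : EF lam a (kap lam n) = fun t => ((a n t : ℝ) : ℂ) := funext fun t => EF_kap hlam a n t
      rw [this, EF_kap hlam]
      exact (h3 n t ht hT).ofReal_comp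
    · have : EF lam a k = fun _ => 0 := funext fun t => EF_not a hk t
      rw [this, EF_not a' hk]
      exact hasDerivAt_const _ _

/-- the weights of the three components -/
noncomputable def wc : Fin 3 → ℂ := ![0, 1, -Complex.I]

theorem norm_wc (i : Fin 3) : ‖wc i‖ ≤ 1 := by
  fin_cases i <;> simp [wc]

theorem wc_psi {lam : ℕ} (n : ℕ) (x : V) (i : Fin 3) : (wc i * ex (kap lam n) x).re = psi lam n x i := by
  have h : ex (kap lam n) x = ((Real.cos (2 * Real.pi * lam ^ n * x 0) : ℝ) : ℂ) +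
      ((Real.sin (2 * Real.pi * lam ^ n * x 0) : ℝ) : ℂ) * Complex.I := by
    unfold ex
    have e1 : ∑ j, ((kap lam n j : ℤ) : ℂ) * ((x j : ℝ) : ℂ) = (((lam : ℝ) ^ n * x 0 : ℝ) : ℂ) := by
      rw [Fin.sum_univ_three]
      simp [kap]
    rw [e1]
    have e2 : 2 * (Real.pi : ℂ) * Complex.I * ((((lam : ℝ) ^ n * x 0 : ℝ)) : ℂ) =
      ((2 * Real.pi * lam ^ n * x 0 : ℝ) : ℂ) * Complex.I := by push_cast; ring
    rw [e2, Complex.exp_mul_I, ← Complex.ofReal_cos, ← Complex.ofReal_sin]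
  rw [h]
  generalize hc : Real.cos (2 * Real.pi * lam ^ n * x 0) = c
  generalize hs : Real.sin (2 * Real.pi * lam ^ n * x 0) = s
  fin_cases i
  · simp [wc, psi_zero]
  · simp [wc, psi_one, hc]
  · simp [wc, psi_two, hs]

theorem GS_EF {lam : ℕ} (hlam : 2 ≤ lam) {a : ℕ → ℝ → ℝ} (ha : RDD a) (i : Fin 3) (t : ℝ) (x : V) :
    (GS 0 (fun k t => wc i * EF lam a k t) t x).re = ∑' n, a n t * psi lam n x i := by
  have hs : Summable fun k => wc i * EF lam a k t * ex k x := by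
    obtain ⟨b, hb, hb'⟩ := (EF_RD hlam ha).summ
    refine Summable.of_norm_bounded hb fun k => ?_
    rw [norm_mul, norm_mul, Pool.Agent.K1H11.NS.norm_ex, mul_one]
    calc ‖wc i‖ * ‖EF lam a k t‖ ≤ 1 * ‖EF lam a k t‖ := mul_le_mul_of_nonneg_right (norm_wc i) (norm_nonneg _)
      _ ≤ b k := by rw [one_mul]; exact hb' k t
  have e1 : GS 0 (fun k t => wc i * EF lam a k t) t x = ∑' k, wc i * EF lam a k t * ex k x := by
    unfold GS Pool.Agent.K1H11.NS.SF
    simp only [smul_zero, sub_zero]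
  have e2 : ∑' k, wc i * EF lam a k t * ex k x = ∑' n, wc i * EF lam a (kap lam n) t * ex (kap lam n) x := by
    refine ((kap_inj hlam).tsum_eq (f := fun k => wc i * EF lam a k t * ex k x) ?_).symm
    intro k hk
    by_contra h
    apply hk
    simp only
    rw [EF_not a h]
    ring
  rw [e1, e2]
  have hs2 : Summable fun n => wc i * EF lam a (kap lam n) t * ex (kap lam n) x :=
    hs.comp_injective (kap_inj hlam)
  rw [← Complex.reCLM_apply, Complex.reCLM.map_tsum hs2]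
  refine tsum_congr fun n => ?_
  rw [Complex.reCLM_apply, EF_kap hlam, ← wc_psi]
  have : wc i * ((a n t : ℝ) : ℂ) * ex (kap lam n) x = ((a n t : ℝ) : ℂ) * (wc i * ex (kap lam n) x) := by ring
  rw [this, Complex.re_ofReal_mul]

/-- joint smoothness up to every time before `T` -/
theorem smooth_clamp {lam : ℕ} (hlam : 2 ≤ lam) {T : ℝ} {a : ℕ → ℝ → ℝ} (ha : ∀ k, TDl T k a) {T1 : ℝ}
    (h0 : 0 < T1) (hT : T1 < T) :
    ContDiffOn ℝ ∞ (fun z : ℝ × V => fun i => ∑' n, a n z.1 * psi lam n z.2 i) (Icc 0 T1 ×ˢ univ) := by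
  rw [contDiffOn_pi]
  intro i
  set r1 := (2 * T1 + T) / 3 with hr1
  set r2 := (T1 + 2 * T) / 3 with hr2
  have e1 : T1 < r1 := by rw [hr1]; linarith
  have e2 : r1 < r2 := by rw [hr1, hr2]; linarith
  have e3 : r2 < T := by rw [hr2]; linarith
  let f : ContDiffBump (0 : ℝ) := ⟨r1, r2, by linarith, e2⟩
  have hfz : ∀ t, r2 < t → f t = 0 := by
    intro t ht
    apply f.zero_of_le_dist
    rw [Real.dist_eq, sub_zero]
    exact ht.le.trans (le_abs_self t)
  have hf1 : ∀ t, 0 ≤ t → t ≤ r1 → f t = 1 := by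
    intro t h0 ht
    apply f.one_of_mem_closedBall
    rw [Metric.mem_closedBall, Real.dist_eq, sub_zero, abs_of_nonneg h0]
    exact ht
  have hTB : ∀ n, TB n f := fun n => Pool.Agent.K1H11.NS.TB_of n f.contDiff f.hasCompactSupport
  have hc : ∀ k, TTl T k (fun k t => wc i * EF lam a k t) := fun k =>
    TTl.mul (C := 1) (r := 0) (fun _ => by simpa using norm_wc i) (EF_TTl hlam (ha k))
  have hTT : ∀ k, TT k (fun k t => ((f t : ℝ) : ℂ) * (wc i * EF lam a k t)) := fun k =>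
    cut_TT e3 k (hc k) (hTB k) hfz
  have hsm := Pool.Agent.K1H11.NS.GS_smooth_re 0 hTT
  refine (hsm.mono (prod_mono (fun t ht => ht.1) subset_rfl)).congr fun z hz => ?_
  have ht : f z.1 = 1 := hf1 z.1 hz.1.1 (hz.1.2.trans e1.le)
  have e4 : GS 0 (fun k t => ((f t : ℝ) : ℂ) * (wc i * EF lam a k t)) z.1 z.2 =
      GS 0 (fun k t => wc i * EF lam a k t) z.1 z.2 := by
    unfold GS Pool.Agent.K1H11.NS.SF
    refine tsum_congr fun k => ?_
    simp only [ht, Complex.ofReal_one, one_mul]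
  rw [e4, GS_EF hlam (ha 0).rd]

end Pool.Agent.H39.PDE
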