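import Pool.Agent.H39.PDE.Smooth

/-!
# From the dyadic system to the partial differential equation
-/

open MeasureTheory Set Filter Topology
open scoped ContDiff

namespace Pool.Agent.H39.PDE

open H459R3.NS (V K3 Per cube SP pd lap)
open Pool.Agent.H39.Dy (gain IsSol Rapid)

variable {lam : ℕ}

/-- termwise differentiation -/
theorem hasDerivAt_ser {a c : ℕ → ℝ} {g g' : ℕ → ℝ → ℝ} (hg : ∀ n y, HasDerivAt (g n) (g' n y) y)
    (hb : ∀ n y, |g n y| ≤ 1) (hb' : ∀ n y, |g' n y| ≤ c n) (ha : Summable fun n => |a n|)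
    (hac : Summable fun n => c n * |a n|) (y : ℝ) :
    HasDerivAt (fun y => ∑' n, a n * g n y) (∑' n, a n * g' n y) y := by
  refine hasDerivAt_tsum hac (fun n y => (hg n y).const_mul (a n)) (fun n y => ?_) (y₀ := 0) ?_ y
  · rw [Real.norm_eq_abs, abs_mul, mul_comm]
    exact mul_le_mul_of_nonneg_right (hb' n y) (abs_nonneg _)
  · refine Summable.of_norm_bounded ha fun n => ?_
    rw [Real.norm_eq_abs, abs_mul]
    exact mul_le_of_le_one_right (abs_nonneg _) (hb n 0)

theorem ser_cos (hlam : 1 ≤ lam) {a : ℕ → ℝ} (ha : RS a) (y : ℝ) :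
    HasDerivAt (fun y => ∑' n, a n * Real.cos (2 * Real.pi * lam ^ n * y))
      (∑' n, (-(2 * Real.pi * lam ^ n) * a n) * Real.sin (2 * Real.pi * lam ^ n * y)) y := by
  have hpi := Real.pi_pos
  have hl : (0 : ℝ) < lam := by exact_mod_cast hlam
  have h := hasDerivAt_ser (a := a) (c := fun n => 2 * Real.pi * lam ^ n)
    (g := fun n y => Real.cos (2 * Real.pi * lam ^ n * y))
    (g' := fun n y => -(2 * Real.pi * lam ^ n) * Real.sin (2 * Real.pi * lam ^ n * y))
    (fun n y => hasDerivAt_cos _ y) (fun n y => Real.abs_cos_le_one _) (fun n y => by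
      rw [abs_mul, abs_neg, abs_of_nonneg (by positivity)]
      exact mul_le_of_le_one_right (by positivity) (Real.abs_sin_le_one _)) ha.summable_abs (by
      have := (ha.summable hl).mul_left (2 * Real.pi)
      exact this.congr fun n => by ring) y
  refine h.congr_deriv (tsum_congr fun n => by ring)

theorem ser_sin (hlam : 1 ≤ lam) {a : ℕ → ℝ} (ha : RS a) (y : ℝ) :
    HasDerivAt (fun y => ∑' n, a n * Real.sin (2 * Real.pi * lam ^ n * y))
      (∑' n, ((2 * Real.pi * lam ^ n) * a n) * Real.cos (2 * Real.pi * lam ^ n * y)) y := by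
  have hpi := Real.pi_pos
  have hl : (0 : ℝ) < lam := by exact_mod_cast hlam
  have h := hasDerivAt_ser (a := a) (c := fun n => 2 * Real.pi * lam ^ n)
    (g := fun n y => Real.sin (2 * Real.pi * lam ^ n * y))
    (g' := fun n y => (2 * Real.pi * lam ^ n) * Real.cos (2 * Real.pi * lam ^ n * y))
    (fun n y => hasDerivAt_sin _ y) (fun n y => Real.abs_sin_le_one _) (fun n y => by
      rw [abs_mul, abs_of_nonneg (by positivity : 0 ≤ 2 * Real.pi * (lam : ℝ) ^ n)]
      exact mul_le_of_le_one_right (by positivity) (Real.abs_cos_le_one _)) ha.summable_abs (by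
      have := (ha.summable hl).mul_left (2 * Real.pi)
      exact this.congr fun n => by ring) y
  refine h.congr_deriv (tsum_congr fun n => by ring)

theorem RS.congr {a b : ℕ → ℝ} (ha : RS a) (h : ∀ n, b n = a n) : RS b := by
  have : b = a := funext h
  rwa [this]

theorem RS.freq (hlam : 1 ≤ lam) {a : ℕ → ℝ} (ha : RS a) : RS fun n => (2 * Real.pi * lam ^ n) * a n := by
  have hl : (0 : ℝ) < lam := by exact_mod_cast hlam
  exact ((ha.pow_mul hl).const_mul (2 * Real.pi)).congr fun n => by ring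

theorem RS.freq' (hlam : 1 ≤ lam) {a : ℕ → ℝ} (ha : RS a) : RS fun n => -(2 * Real.pi * lam ^ n) * a n := by
  exact ((ha.freq hlam).const_mul (-1)).congr fun n => by ring

/-- first derivatives of the series: only the first coordinate matters -/
theorem pd_series (hlam : 1 ≤ lam) {a : ℕ → ℝ} (ha : RS a) {j : Fin 3} (hj : j ≠ 0) (i : Fin 3) (x : V) :
    pd j (fun y => ∑' n, a n * psi lam n y i) x = 0 := by
  fin_cases i
  · show pd j (fun y => ∑' n, a n * 0) x = 0
    simp only [mul_zero, tsum_zero, pd_const0]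
  · have h := pd_first (g := fun y => ∑' n, a n * Real.cos (2 * Real.pi * lam ^ n * y))
      (fun y => (ser_cos hlam ha y).differentiableAt) j x
    rw [if_neg hj] at h
    exact h
  · have h := pd_first (g := fun y => ∑' n, a n * Real.sin (2 * Real.pi * lam ^ n * y))
      (fun y => (ser_sin hlam ha y).differentiableAt) j x
    rw [if_neg hj] at h
    exact h

theorem pd_series0 (a : ℕ → ℝ) (j : Fin 3) (x : V) :
    pd j (fun y => ∑' n, a n * psi lam n y 0) x = 0 := by
  show pd j (fun y => ∑' n, a n * 0) x = 0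
  simp only [mul_zero, tsum_zero, pd_const0]

theorem lap_series (hlam : 1 ≤ lam) {a : ℕ → ℝ} (ha : RS a) (i : Fin 3) (x : V) :
    lap (fun y => ∑' n, a n * psi lam n y i) x = ∑' n, (-(2 * Real.pi * lam ^ n) ^ 2 * a n) * psi lam n x i := by
  have key : ∀ g g' g'' : ℝ → ℝ, (∀ y, HasDerivAt g (g' y) y) → (∀ y, HasDerivAt g' (g'' y) y) →
      ∑ j, pd j (pd j fun y : V => g (y 0)) x = g'' (x 0) := by
    intro g g' g'' h1 h2
    have hg : Differentiable ℝ g := fun y => (h1 y).differentiableAt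
    have hg' : Differentiable ℝ g' := fun y => (h2 y).differentiableAt
    have e0 : (pd 0 fun y : V => g (y 0)) = fun y => g' (y 0) := by
      funext y
      rw [pd_first hg, if_pos rfl, (h1 _).deriv]
    have e1 : ∀ j : Fin 3, j ≠ 0 → (pd j fun y : V => g (y 0)) = fun _ => 0 := by
      intro j hj
      funext y
      rw [pd_first hg, if_neg hj]
    rw [Fin.sum_univ_three, e0, e1 1 (by decide), e1 2 (by decide), pd_first hg', if_pos rfl,
      (h2 _).deriv]
    simp [pd]
  fin_cases i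
  · show ∑ j, pd j (pd j fun y => ∑' n, a n * 0) x = ∑' n, _ * 0
    simp only [mul_zero, tsum_zero, pd_const0]
    simp
  · refine (key (fun y => ∑' n, a n * Real.cos (2 * Real.pi * lam ^ n * y)) _ _ (ser_cos hlam ha)
      (ser_sin hlam (ha.freq' hlam))).trans ?_
    refine tsum_congr fun n => ?_
    show _ = _ * Real.cos (2 * Real.pi * lam ^ n * x 0)
    ring
  · refine (key (fun y => ∑' n, a n * Real.sin (2 * Real.pi * lam ^ n * y)) _ _ (ser_sin hlam ha)
      (ser_cos hlam (ha.freq hlam))).trans ?_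
    refine tsum_congr fun n => ?_
    show _ = _ * Real.sin (2 * Real.pi * lam ^ n * x 0)
    ring

/-- the field with the coefficients `a` -/
noncomputable def fld (lam : ℕ) (a : ℕ → ℝ) (x : V) : V := fun i => ∑' n, a n * psi lam n x i

theorem fld_summable {a : ℕ → ℝ} (ha : Summable fun n => |a n|) (x : V) (i : Fin 3) :
    Summable fun n => a n * psi lam n x i := by
  refine Summable.of_norm_bounded ha fun n => ?_
  rw [Real.norm_eq_abs, abs_mul]
  exact mul_le_of_le_one_right (abs_nonneg _) (abs_psi_le n x i)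

theorem fld_per (a : ℕ → ℝ) : Per (fld lam a) := by
  intro j x
  funext i
  unfold fld
  refine tsum_congr fun n => ?_
  have h : psi lam n (x + Pi.single j 1) i = psi lam n x i := (sp_psi (lam := lam) n i).per j x
  rw [h]

/-- the fields are smooth -/
theorem fld_smooth (hlam : 2 ≤ lam) {a : ℕ → ℝ} (ha : RS a) : ContDiff ℝ ∞ (fld lam a) := by
  have hTD : ∀ k, TDl 3 k (fun n (_ : ℝ) => a n) := by
    have h0 : ∀ k, TDl 3 k (fun (_ : ℕ) (_ : ℝ) => (0 : ℝ)) := by
      have hz : RDD fun (_ : ℕ) (_ : ℝ) => (0 : ℝ) := fun s _ => ⟨0, fun n t => by simp⟩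
      intro k
      induction k with
      | zero => exact ⟨hz, fun n => continuous_const⟩
      | succ k ih => exact ⟨hz, fun n => continuous_const, _, fun n t _ _ => hasDerivAt_const _ _, ih⟩
    have hr : RDD fun n (_ : ℝ) => a n := fun s hs => by
      obtain ⟨C, hC⟩ := ha s hs
      exact ⟨C, fun n _ => hC n⟩
    intro k
    cases k with
    | zero => exact ⟨hr, fun n => continuous_const⟩
    | succ k => exact ⟨hr, fun n => continuous_const, _, fun n t _ _ => hasDerivAt_const _ _, h0 k⟩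
  have h := smooth_clamp hlam hTD (T1 := 2) (by norm_num) (by norm_num)
  rw [← contDiffOn_univ]
  exact h.comp (f := fun x : V => ((1, x) : ℝ × V)) (by fun_prop) fun x _ =>
    ⟨⟨by norm_num, by norm_num⟩, mem_univ _⟩

theorem fld_sp (hlam : 2 ≤ lam) {a : ℕ → ℝ} (ha : RS a) (i : Fin 3) : SP fun x => fld lam a x i :=
  ⟨(contDiff_pi.1 (fld_smooth hlam ha)) i, fun j x => congrFun (fld_per a j x) i⟩

theorem fld_div (hlam : 1 ≤ lam) {a : ℕ → ℝ} (ha : RS a) (x : V) : ∑ i, pd i (fun y => fld lam a y i) x = 0 := by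
  unfold fld
  rw [Fin.sum_univ_three, pd_series0, pd_series hlam ha (by decide), pd_series hlam ha (by decide)]
  ring

theorem co_fld (hlam : 2 ≤ lam) {a : ℕ → ℝ} (ha : Summable fun n => |a n|) : co lam (fld lam a) = a :=
  funext fun n => co_series hlam ha n

theorem casc_eq (B α β : ℝ) (v w : V → V) :
    casc lam B α β v w = fld lam (sh α β B (co lam v) (co lam w)) := rfl

/-- **Dyadic solutions give smooth solutions of the partial differential equation.** -/
theorem up (hlam : 2 ≤ lam) {B α β ν T₀ : ℝ} (hB : 0 < B) {X : ℕ → ℝ → ℝ}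
    (h : ∀ T, 0 ≤ T → T < T₀ → IsSol α β B ((lam : ℝ) ^ 2) (4 * Real.pi ^ 2 * ν) T X ∧ Rapid T X) (θ : ℝ) :
    Sol θ lam B α β ν T₀ (fun t => fld lam fun n => X n t) (fun _ _ => 0) := by
  have hl1 : 1 ≤ lam := by omega
  have hl : (0 : ℝ) < lam := by exact_mod_cast hl1
  have hrs : ∀ t ∈ Ico 0 T₀, RS fun n => X n t := by
    intro t ht s hs
    obtain ⟨C, hC⟩ := (h t ht.1 ht.2).2 s hs
    exact ⟨C, fun n => hC n t ⟨ht.1, le_rfl⟩⟩
  refine ⟨?_, contDiffOn_const, fun t _ => fld_per _, fun t _ i x => rfl, fun t ht x => fld_div hl1 (hrs t ht) x,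
    fun t ht x i => ?_⟩
  · -- smoothness
    rintro ⟨t, x⟩ ⟨ht, -⟩
    obtain ⟨T1, h1, h2⟩ := exists_between ht.2
    obtain ⟨T2, h3, h4⟩ := exists_between h2
    have hT1 : 0 < T1 := ht.1.trans_lt h1
    have hT2 : 0 ≤ T2 := (hT1.trans h3).le
    obtain ⟨s1, s2⟩ := h T2 hT2 h4
    have hsm := smooth_clamp hlam (TDl_clamp hB (by positivity) hT2 s1 s2) hT1 h3
    have hsm' : ContDiffOn ℝ ∞ (fun z : ℝ × V => fld lam (fun n => X n z.1) z.2) (Icc 0 T1 ×ˢ univ) := by
      refine hsm.congr fun z hz => ?_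
      funext i
      unfold fld
      refine tsum_congr fun n => ?_
      rw [clamp_eq hT2 X n ⟨hz.1.1, hz.1.2.trans h3.le⟩]
    refine (hsm' (t, x) ⟨⟨ht.1, h1.le⟩, mem_univ _⟩).mono_of_mem_nhdsWithin ?_
    have h5 : Ico 0 T₀ ×ˢ (univ : Set V) ∩ (Iio T1 ×ˢ univ) ⊆ Icc 0 T1 ×ˢ univ := by
      rintro z ⟨⟨hz1, -⟩, hz2, -⟩
      exact ⟨⟨hz1.1, hz2.le⟩, mem_univ _⟩
    refine Filter.mem_of_superset ?_ h5
    exact Filter.inter_mem self_mem_nhdsWithin (nhdsWithin_le_nhds
      ((isOpen_Iio.prod isOpen_univ).mem_nhds ⟨h1, mem_univ _⟩))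
  · -- the equation
    have hI : t ∈ Ico 0 T₀ := ⟨ht.1.le, ht.2⟩
    obtain ⟨T1, h1, h2⟩ := exists_between ht.2
    have hT1 : 0 < T1 := ht.1.trans h1
    obtain ⟨s1, s2⟩ := h T1 hT1.le h2
    set f : ℕ → ℝ → ℝ := fun n t => gain α β B (fun k => X k t) n -
      4 * Real.pi ^ 2 * ν * ((lam : ℝ) ^ 2) ^ n * X n t - B ^ n * X (n + 1) t * (α * X n t + β * X (n + 1) t)
      with hf
    have hTD := TDl_clamp hB (by positivity : (0 : ℝ) < (lam : ℝ) ^ 2) hT1.le s1 s2
    have hfr : RDD fun n t => f n (projIcc 0 T1 hT1.le t) :=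
      (((hTD 0).rhs (α := α) (β := β) (ν := 4 * Real.pi ^ 2 * ν) hB (by positivity : (0 : ℝ) < (lam : ℝ) ^ 2))).rd
    obtain ⟨C, hC0, hC⟩ := hfr.nonneg (s := 2) two_pos
    have hfb : ∀ n, ∀ s ∈ Ioo 0 T1, |f n s| ≤ C * (1 / 2) ^ n := by
      intro n s hs
      have : 2 ^ n * |f n (projIcc 0 T1 hT1.le s)| ≤ C := hC n s
      rw [projIcc_of_mem hT1.le ⟨hs.1.le, hs.2.le⟩] at this
      rw [one_div, inv_pow, ← div_eq_mul_inv, le_div_iff₀ (by positivity)]
      linarith
    have hd : HasDerivAt (fun s => fld lam (fun n => X n s) x i) (∑' n, f n t * psi lam n x i) t := by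
      refine hasDerivAt_tsum_of_isPreconnected (t := Ioo 0 T1) (u := fun n => C * (1 / 2) ^ n)
        (g := fun n s => X n s * psi lam n x i) (g' := fun n s => f n s * psi lam n x i)
        ((summable_geometric_of_lt_one (by norm_num) (by norm_num)).mul_left _) isOpen_Ioo isPreconnected_Ioo
        (fun n s hs => ?_) (fun n s hs => ?_) (y₀ := t) ⟨ht.1, h1⟩
        (fld_summable (hrs t hI).summable_abs x i) ⟨ht.1, h1⟩
      · exact ((s1 n s ⟨hs.1.le, hs.2.le⟩).hasDerivAt (Icc_mem_nhds hs.1 hs.2)).mul_const _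
      · rw [Real.norm_eq_abs, abs_mul]
        exact (mul_le_of_le_one_right (abs_nonneg _) (abs_psi_le n x i)).trans (hfb n s hs)
    have hX := hrs t hI
    have e1 : ∑ j, fld lam (fun n => X n t) x j * pd j (fun y => fld lam (fun n => X n t) y i) x = 0 := by
      have a1 : ∀ j : Fin 3, j ≠ 0 → pd j (fun y => fld lam (fun n => X n t) y i) x = 0 := fun j hj =>
        pd_series hl1 hX hj i x
      have a0 : fld lam (fun n => X n t) x 0 = 0 := by
        unfold fld
        simp [psi_zero]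
      rw [Fin.sum_univ_three, a0, a1 1 (by decide), a1 2 (by decide)]
      ring
    have e2 : lap (fun y => fld lam (fun n => X n t) y i) x =
        ∑' n, (-(2 * Real.pi * lam ^ n) ^ 2 * X n t) * psi lam n x i := lap_series hl1 hX i x
    have e3 : casc lam B α β (fld lam fun n => X n t) (fld lam fun n => X n t) x i =
        ∑' n, sh α β B (fun n => X n t) (fun n => X n t) n * psi lam n x i := by
      rw [casc_eq, co_fld hlam hX.summable_abs]
      rfl
    have e4 : pd i (fun _ : V => (0 : ℝ)) x = 0 := by rw [pd_const0]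
    rw [hd.deriv, e1, e2, e3, e4, mul_zero, add_zero, sub_zero, ← tsum_mul_left]
    have hs1 : Summable fun n => ν * ((-(2 * Real.pi * lam ^ n) ^ 2 * X n t) * psi lam n x i) := by
      have h5 : RS fun n => -(2 * Real.pi * lam ^ n) ^ 2 * X n t :=
        ((hX.freq hl1).freq' hl1).congr fun n => by ring
      exact (fld_summable h5.summable_abs x i).mul_left ν
    have hs2 : Summable fun n => sh α β B (fun n => X n t) (fun n => X n t) n * psi lam n x i :=
      fld_summable (hX.sh hB hX).summable_abs x i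
    rw [← hs1.tsum_add hs2]
    refine tsum_congr fun n => ?_
    rw [sh_self]
    simp only [hf]
    have e5 : (2 * Real.pi * (lam : ℝ) ^ n) ^ 2 = 4 * Real.pi ^ 2 * ((lam : ℝ) ^ 2) ^ n := by
      rw [mul_pow, ← pow_mul, ← pow_mul, mul_comm n 2]; ring
    rw [e5]
    ring

end Pool.Agent.H39.PDE
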